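import Mathlib

/-!
# Basic definitions of PART T
-/

open TensorProduct

universe u

noncomputable section

namespace Pool.Agent.Lib.MP_211349_ag

/-- The homomorphism `T ⊗ P → B`, for a `T`-algebra and `P`-algebra `B`. -/
def lam (F T P B : Type u) [CommRing F] [CommRing T] [CommRing P] [CommRing B] [Algebra F T]
    [Algebra F P] [Algebra F B] [Algebra T B] [Algebra P B] [IsScalarTower F T B]
    [IsScalarTower F P B] : T ⊗[F] P →+* B :=
  (Algebra.TensorProduct.productMap (IsScalarTower.toAlgHom F T B)
    (IsScalarTower.toAlgHom F P B)).toRingHom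

/-- `P` is a finite free module over `F[x]`. -/
def FreeOver {F P : Type u} [CommRing F] [CommRing P] [Algebra F P] (x : P) : Prop :=
  ∃ (n : ℕ) (e : Module.Basis (Fin n × ℕ) F P), ∀ j i, x * e (j, i) = e (j, i + 1)

end Pool.Agent.Lib.MP_211349_ag
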