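import Pool.Agent.Lib.MP_211349_ag.T.Base

/-!
# Bounded degree; assembling bounded families
-/

open TensorProduct

universe u

noncomputable section

namespace Pool.Agent.Lib.MP_211349_ag

section bound

variable {R E E' G : Type u} [CommRing R] [CommRing E] [CommRing E'] [CommRing G]
  [Algebra R E] [Algebra R E'] [Algebra R G] [Algebra E G] [Algebra E' G]
  [IsScalarTower R E G] [IsScalarTower R E' G]

/-- The element `β` of `T ⊗ E` has degree at most `d` in the basis `e`, indexed by pairs `(j, i)` (think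
of `e (j, i) = x ^ i b_j`). -/
def Bdd {n : ℕ} (e : Module.Basis (Fin n × ℕ) R E) (T : Type u) [CommRing T] [Algebra R T]
    (d : ℕ) (β : T ⊗[R] E) : Prop :=
  ∀ j i, d < i → (Algebra.TensorProduct.basis T e).repr β (j, i) = 0

/-- The base change of the structure map `E → G` to `T`. -/
def bc (R E G T : Type u) [CommRing R] [CommRing E] [CommRing G] [CommRing T] [Algebra R E]
    [Algebra R G] [Algebra E G] [IsScalarTower R E G] [Algebra R T] : T ⊗[R] E →ₐ[T] T ⊗[R] G :=
  Algebra.TensorProduct.map (AlgHom.id T T) (IsScalarTower.toAlgHom R E G)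

-- BEGIN B1
/-- (B1) Multiplication by `x` shifts the coordinates. -/
theorem repr_x_mul {n : ℕ} (x : E) (e : Module.Basis (Fin n × ℕ) R E)
    (he : ∀ j i, x * e (j, i) = e (j, i + 1)) (T : Type u) [CommRing T] [Algebra R T]
    (β : T ⊗[R] E) (j : Fin n) (i : ℕ) :
    (Algebra.TensorProduct.basis T e).repr ((1 ⊗ₜ[R] x) * β) (j, i + 1) =
      (Algebra.TensorProduct.basis T e).repr β (j, i) ∧
    (Algebra.TensorProduct.basis T e).repr ((1 ⊗ₜ[R] x) * β) (j, 0) = 0 := by
  classical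
  set bT := Algebra.TensorProduct.basis T e with hbT
  have hm : ∀ k : Fin n × ℕ, (1 ⊗ₜ[R] x : T ⊗[R] E) * bT k = bT (k.1, k.2 + 1) := fun k => by
    rw [hbT, Algebra.TensorProduct.basis_apply, Algebra.TensorProduct.basis_apply,
      Algebra.TensorProduct.tmul_mul_tmul, one_mul, ← he]
  constructor
  · have h1 : (Finsupp.lapply (R := T) (j, i + 1)) ∘ₗ bT.repr.toLinearMap ∘ₗ
        (LinearMap.mulLeft T (1 ⊗ₜ[R] x : T ⊗[R] E)) =
        (Finsupp.lapply (R := T) (j, i)) ∘ₗ bT.repr.toLinearMap := by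
      refine bT.ext fun k => ?_
      simp only [LinearMap.comp_apply, LinearMap.mulLeft_apply, LinearEquiv.coe_coe,
        Finsupp.lapply_apply]
      rw [hm, bT.repr_self, bT.repr_self, Finsupp.single_apply, Finsupp.single_apply]
      obtain ⟨a, b⟩ := k
      simp [Prod.ext_iff]
    exact LinearMap.congr_fun h1 β
  · have h1 : (Finsupp.lapply (R := T) (j, 0)) ∘ₗ bT.repr.toLinearMap ∘ₗ
        (LinearMap.mulLeft T (1 ⊗ₜ[R] x : T ⊗[R] E)) = 0 := by
      refine bT.ext fun k => ?_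
      simp only [LinearMap.comp_apply, LinearMap.mulLeft_apply, LinearEquiv.coe_coe,
        Finsupp.lapply_apply, LinearMap.zero_apply]
      rw [hm, bT.repr_self, Finsupp.single_apply]
      simp
    exact LinearMap.congr_fun h1 β
-- END B1

-- BEGIN B2
theorem B2_repr_pow {n : ℕ} (x : E) (e : Module.Basis (Fin n × ℕ) R E)
    (he : ∀ j i, x * e (j, i) = e (j, i + 1)) (T : Type u) [CommRing T] [Algebra R T]
    (N : ℕ) (β : T ⊗[R] E) (j : Fin n) (i : ℕ) :
    (Algebra.TensorProduct.basis T e).repr ((1 ⊗ₜ[R] x) ^ N * β) (j, i + N) =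
      (Algebra.TensorProduct.basis T e).repr β (j, i) := by
  induction N with
  | zero => rw [pow_zero, one_mul, add_zero]
  | succ N ih =>
    rw [pow_succ', mul_assoc, ← add_assoc, (repr_x_mul x e he T _ j (i + N)).1, ih]

theorem B2_isLocalization (x : E) [IsLocalization.Away x G] (T : Type u)
    [CommRing T] [Algebra R T] :
    @IsLocalization (T ⊗[R] E) _ (Submonoid.powers (1 ⊗ₜ[R] x)) (T ⊗[R] G) _
      (bc R E G T).toRingHom.toAlgebra := by
  let : Algebra (T ⊗[R] E) (T ⊗[R] G) := (bc R E G T).toRingHom.toAlgebra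
  have : IsScalarTower T (T ⊗[R] E) (T ⊗[R] G) :=
    .of_algebraMap_eq fun a => ((bc R E G T).commutes a).symm
  have h := IsLocalization.tensorProduct_tensorProduct_right R T (Submonoid.powers x) G (by
    ext y
    change bc R E G T (1 ⊗ₜ y) = 1 ⊗ₜ algebraMap E G y
    rw [bc, Algebra.TensorProduct.map_tmul]
    rfl)
  rw [Submonoid.map_powers] at h
  exact h

/-- (B2) Hence `T ⊗ E → T ⊗ G` is injective, where `G = E[1/x]`. (If `β ↦ 0` then `(1 ⊗ x) ^ N β = 0` for some `N`,
since `T ⊗ G` is the localization of `T ⊗ E`: e.g. by `IsLocalizedModule` flatness, or directly: apply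
`IsLocalization.Away` facts `IsLocalization.tensor...`.) -/
theorem bc_injective {n : ℕ} (x : E) [IsLocalization.Away x G]
    (e : Module.Basis (Fin n × ℕ) R E) (he : ∀ j i, x * e (j, i) = e (j, i + 1)) (T : Type u)
    [CommRing T] [Algebra R T] : Function.Injective (bc R E G T) := by
  let : Algebra (T ⊗[R] E) (T ⊗[R] G) := (bc R E G T).toRingHom.toAlgebra
  have hloc : IsLocalization (Submonoid.powers (1 ⊗ₜ[R] x : T ⊗[R] E)) (T ⊗[R] G) :=
    B2_isLocalization x T
  intro β γ h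
  obtain ⟨⟨_, N, rfl⟩, h1⟩ := IsLocalization.exists_of_eq
    (M := Submonoid.powers (1 ⊗ₜ[R] x : T ⊗[R] E)) (S := T ⊗[R] G) h
  apply (Algebra.TensorProduct.basis T e).repr.injective
  ext ⟨j, i⟩
  rw [← B2_repr_pow x e he T N β j i, ← B2_repr_pow x e he T N γ j i]
  exact congrArg (fun z => (Algebra.TensorProduct.basis T e).repr z (j, i + N)) h1
-- END B2

-- BEGIN B3
/-- (B3) Every element of `T ⊗ G` becomes an element of `T ⊗ E` after multiplication by a power of `x`. -/
theorem bc_denominator (x : E) [IsLocalization.Away x G] (T : Type u) [CommRing T] [Algebra R T]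
    (c : T ⊗[R] G) : ∃ (N : ℕ) (β : T ⊗[R] E), (1 ⊗ₜ algebraMap E G x) ^ N * c = bc R E G T β := by
  let : Algebra (T ⊗[R] E) (T ⊗[R] G) := (bc R E G T).toRingHom.toAlgebra
  have hloc : IsLocalization (Submonoid.powers (1 ⊗ₜ[R] x : T ⊗[R] E)) (T ⊗[R] G) :=
    B2_isLocalization x T
  obtain ⟨⟨β, ⟨_, N, rfl⟩⟩, h⟩ := IsLocalization.surj
    (Submonoid.powers (1 ⊗ₜ[R] x : T ⊗[R] E)) c
  refine ⟨N, β, ?_⟩
  have h2 : c * bc R E G T ((1 ⊗ₜ[R] x) ^ N) = bc R E G T β := h
  rw [← h2, map_pow, mul_comm]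
  congr 2
-- END B3

/-- The element `c` of `T ⊗ G` has a pole of order at most `d` at infinity. -/
def Fil {n : ℕ} (x : E) (e : Module.Basis (Fin n × ℕ) R E) (T : Type u) [CommRing T]
    [Algebra R T] (d : ℕ) (c : T ⊗[R] G) : Prop :=
  ∃ (N : ℕ) (β : T ⊗[R] E), Bdd e T (d + N) β ∧
    (1 ⊗ₜ algebraMap E G x) ^ N * c = bc R E G T β

-- BEGIN B4
theorem B4_bc_pow (x : E) (T : Type u) [CommRing T] [Algebra R T] (N : ℕ) :
    bc R E G T ((1 ⊗ₜ[R] x) ^ N) = (1 ⊗ₜ algebraMap E G x) ^ N := by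
  rw [map_pow]
  congr 1

theorem B4_bdd_mul {n : ℕ} {x : E} {e : Module.Basis (Fin n × ℕ) R E}
    (he : ∀ j i, x * e (j, i) = e (j, i + 1)) {T : Type u} [CommRing T] [Algebra R T] {d : ℕ}
    {β : T ⊗[R] E} (h : Bdd e T d β) (N : ℕ) : Bdd e T (d + N) ((1 ⊗ₜ[R] x) ^ N * β) := by
  induction N with
  | zero => rwa [pow_zero, one_mul, add_zero]
  | succ N ih =>
    intro j i hi
    obtain _ | i := i
    · omega
    · rw [pow_succ', mul_assoc, (repr_x_mul x e he T _ j i).1]
      exact ih j i (by omega)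

/-- (B4) -/
theorem Fil.add {n : ℕ} {x : E} {e : Module.Basis (Fin n × ℕ) R E}
    (he : ∀ j i, x * e (j, i) = e (j, i + 1)) {T : Type u} [CommRing T] [Algebra R T] {d : ℕ}
    {c c' : T ⊗[R] G} (h : Fil x e T d c) (h' : Fil x e T d c') : Fil x e T d (c + c') := by
  obtain ⟨N, β, h1, h2⟩ := h
  obtain ⟨N', β', h1', h2'⟩ := h'
  refine ⟨N + N', (1 ⊗ₜ[R] x) ^ N' * β + (1 ⊗ₜ[R] x) ^ N * β', ?_, ?_⟩
  · intro j i hi
    rw [map_add, Finsupp.add_apply, B4_bdd_mul he h1 N' j i (by omega),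
      B4_bdd_mul he h1' N j i (by omega), add_zero]
  · rw [map_add, map_mul, map_mul, B4_bc_pow, B4_bc_pow, ← h2, ← h2']
    ring
-- END B4

-- BEGIN B5
/-- (B5) -/
theorem Fil.smul {n : ℕ} {x : E} {e : Module.Basis (Fin n × ℕ) R E} {T : Type u} [CommRing T]
    [Algebra R T] {d : ℕ} {c : T ⊗[R] G} (h : Fil x e T d c) (a : T) : Fil x e T d (a • c) := by
  obtain ⟨N, β, h1, h2⟩ := h
  refine ⟨N, a • β, ?_, ?_⟩
  · intro j i hi
    rw [map_smul, Finsupp.smul_apply, h1 j i hi, smul_zero]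
  · rw [mul_smul_comm, h2, map_smul]
-- END B5

-- BEGIN B6
/-- (B6) Multiplication by `x' = 1 / x` preserves the filtration. -/
theorem Fil.x'_mul {n : ℕ} {x : E} {x' : G} (hxx' : algebraMap E G x * x' = 1)
    {e : Module.Basis (Fin n × ℕ) R E} {T : Type u} [CommRing T] [Algebra R T] {d : ℕ}
    {c : T ⊗[R] G} (h : Fil x e T d c) : Fil x e T d ((1 ⊗ₜ x') * c) := by
  obtain ⟨N, β, h1, h2⟩ := h
  refine ⟨N + 1, β, fun j i hi => h1 j i (by omega), ?_⟩
  have h3 : (1 ⊗ₜ[R] algebraMap E G x : T ⊗[R] G) * (1 ⊗ₜ[R] x') = 1 := by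
    rw [Algebra.TensorProduct.tmul_mul_tmul, one_mul, hxx']
    rfl
  rw [pow_succ, mul_assoc, ← mul_assoc (1 ⊗ₜ[R] algebraMap E G x : T ⊗[R] G), h3, one_mul, h2]
-- END B6

-- BEGIN B7
/-- (B7) -/
theorem Fil.of_x'_mul {n : ℕ} {x : E} {x' : G} (hxx' : algebraMap E G x * x' = 1)
    {e : Module.Basis (Fin n × ℕ) R E} (he : ∀ j i, x * e (j, i) = e (j, i + 1))
    {T : Type u} [CommRing T] [Algebra R T] {d D : ℕ}
    {c : T ⊗[R] G} (h : Fil x e T d ((1 ⊗ₜ x') ^ D * c)) : Fil x e T (d + D) c := by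
  obtain ⟨N, β, h1, h2⟩ := h
  refine ⟨N, (1 ⊗ₜ[R] x) ^ D * β, ?_, ?_⟩
  · have h3 := B4_bdd_mul he h1 D
    rwa [add_right_comm] at h3
  · have h3 : (1 ⊗ₜ[R] algebraMap E G x : T ⊗[R] G) * (1 ⊗ₜ[R] x') = 1 := by
      rw [Algebra.TensorProduct.tmul_mul_tmul, one_mul, hxx']
      rfl
    have h4 : (1 ⊗ₜ[R] algebraMap E G x : T ⊗[R] G) ^ D * (1 ⊗ₜ[R] x') ^ D = 1 := by
      rw [← mul_pow, h3, one_pow]
    rw [map_mul, B4_bc_pow, ← h2]
    linear_combination (-(1 ⊗ₜ[R] algebraMap E G x : T ⊗[R] G) ^ N * c) * h4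
-- END B7

-- BEGIN B8
/-- (B8) An element of `T ⊗ E` with a pole of order at most `d` has degree at most `d`. (Use (B1), (B2).) -/
theorem Fil.bdd {n : ℕ} {x : E} [IsLocalization.Away x G] {e : Module.Basis (Fin n × ℕ) R E}
    (he : ∀ j i, x * e (j, i) = e (j, i + 1)) {T : Type u} [CommRing T] [Algebra R T] {d : ℕ}
    {β : T ⊗[R] E} (h : Fil (G := G) x e T d (bc R E G T β)) : Bdd e T d β := by
  obtain ⟨N, β', h1, h2⟩ := h
  rw [← B4_bc_pow, ← map_mul] at h2
  have h3 := bc_injective x e he T h2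
  intro j i hi
  rw [← B2_repr_pow x e he T N β j i, h3]
  exact h1 j (i + N) (by omega)
-- END B8

-- BEGIN B9
/-- (B9) Every element of `G` has a pole of bounded order, uniformly in `T`. -/
theorem exists_fil {n : ℕ} (x : E) [IsLocalization.Away x G] (e : Module.Basis (Fin n × ℕ) R E)
    (c : G) : ∃ d : ℕ, ∀ (T : Type u) [CommRing T] [Algebra R T],
      Fil x e T d (1 ⊗ₜ[R] c) := by
  classical
  obtain ⟨⟨y, ⟨_, N, rfl⟩⟩, h⟩ := IsLocalization.surj (Submonoid.powers x) c
  -- `c * x ^ N = y`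
  have hy : c * algebraMap E G (x ^ N) = algebraMap E G y := h
  refine ⟨(e.repr y).support.sup (fun k => k.2), fun T _ _ => ⟨N, 1 ⊗ₜ[R] y, ?_, ?_⟩⟩
  · intro j i hi
    rw [Algebra.TensorProduct.basis_repr_tmul, one_smul, Finsupp.mapRange_apply]
    have h1 : e.repr y (j, i) = 0 := by
      by_contra h2
      have h3 : (j, i) ∈ (e.repr y).support := Finsupp.mem_support_iff.mpr h2
      have h4 := Finset.le_sup (f := fun k : Fin n × ℕ => k.2) h3
      simp only at h4
      omega
    rw [h1, map_zero]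
  · rw [Algebra.TensorProduct.tmul_pow, Algebra.TensorProduct.tmul_mul_tmul, one_pow, one_mul,
      ← map_pow, mul_comm, hy, bc, Algebra.TensorProduct.map_tmul]
    rfl
-- END B9

-- BEGIN B10
/-- (B10) Bound of the degree: `T ⊗ E'` is spanned over `T` by the `1 ⊗ x' ^ i e'_j`, so its image in `T ⊗ G` has
poles of order at most `H`; use (B6), (B7), (B8), (B9). -/
theorem exists_degree_bound {n n' : ℕ} (x : E) (x' : E') [IsLocalization.Away x G]
    (hxx' : algebraMap E G x * algebraMap E' G x' = 1)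
    (e : Module.Basis (Fin n × ℕ) R E) (he : ∀ j i, x * e (j, i) = e (j, i + 1))
    (e' : Module.Basis (Fin n' × ℕ) R E') (he' : ∀ j i, x' * e' (j, i) = e' (j, i + 1)) (D : ℕ) :
    ∃ d : ℕ, ∀ (T : Type u) [CommRing T] [Algebra R T] (β : T ⊗[R] E) (β' : T ⊗[R] E'),
      (1 ⊗ₜ[R] algebraMap E' G x') ^ D * bc R E G T β = bc R E' G T β' → Bdd e T d β := by
  classical
  have h0 : ∀ j : Fin n', ∃ d : ℕ, ∀ (T : Type u) [CommRing T] [Algebra R T],
      Fil x e T d (1 ⊗ₜ[R] algebraMap E' G (e' (j, 0))) := fun j => exists_fil x e _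
  choose dd hdd using h0
  set H : ℕ := Finset.univ.sup dd with hH
  have hmono : ∀ (T : Type u) [CommRing T] [Algebra R T] (d d' : ℕ) (c : T ⊗[R] G), d ≤ d' →
      Fil x e T d c → Fil x e T d' c := fun T _ _ d d' c hd ⟨N, β, h1, h2⟩ =>
    ⟨N, β, fun j i hi => h1 j i (by omega), h2⟩
  refine ⟨H + D, fun T _ _ β β' h => ?_⟩
  -- the basis elements
  have hb : ∀ (j : Fin n') (i : ℕ), Fil x e T H (1 ⊗ₜ[R] algebraMap E' G (e' (j, i))) :=
    fun j i => by
    induction i with
    | zero => exact hmono T _ _ _ (Finset.le_sup (Finset.mem_univ j)) (hdd j T)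
    | succ i ih =>
      have h1 := Fil.x'_mul hxx' ih
      rw [Algebra.TensorProduct.tmul_mul_tmul, one_mul, ← map_mul, he'] at h1
      exact h1
  have hz : Fil x e T H (0 : T ⊗[R] G) := ⟨0, 0, fun j i _ => by simp, by simp⟩
  have hall : ∀ γ : T ⊗[R] E', Fil x e T H (bc R E' G T γ) := fun γ => by
    rw [← (Algebra.TensorProduct.basis T e').linearCombination_repr γ,
      Finsupp.linearCombination_apply, Finsupp.sum, map_sum]
    refine Finset.sum_induction _ (fun z => Fil x e T H z) (fun a b ha hb => ha.add he hb) hz ?_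
    intro k _
    rw [map_smul, Algebra.TensorProduct.basis_apply, bc, Algebra.TensorProduct.map_tmul]
    exact Fil.smul (hb k.1 k.2) _
  have h1 : Fil x e T (H + D) (bc R E G T β) := by
    apply Fil.of_x'_mul hxx' he
    rw [h]
    exact hall β'
  exact h1.bdd he
-- END B10

end bound

section assemble

variable {R E : Type u} [CommRing R] [CommRing E] [Algebra R E] {n : ℕ}
  (e : Module.Basis (Fin n × ℕ) R E) (A : ℕ → Type u) [∀ m, CommRing (A m)]
  [∀ m, Algebra R (A m)]

/-- The `m`-th component of an element of `(∏ A_m) ⊗ E`. -/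
def comp (R E : Type u) [CommRing R] [CommRing E] [Algebra R E] (A : ℕ → Type u)
    [∀ m, CommRing (A m)] [∀ m, Algebra R (A m)] (m : ℕ) :
    (∀ m, A m) ⊗[R] E →ₐ[R] A m ⊗[R] E :=
  Algebra.TensorProduct.map (Pi.evalAlgHom R A m) (AlgHom.id R E)

include e in
-- BEGIN B11
private theorem B11_repr (z : (∀ m, A m) ⊗[R] E) (m : ℕ) (i : Fin n × ℕ) :
    (Algebra.TensorProduct.basis (A m) e).repr (comp R E A m z) i =
      (Algebra.TensorProduct.basis (∀ m, A m) e).repr z i m := by
  induction z using TensorProduct.induction_on with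
  | zero => simp
  | add x y hx hy =>
    rw [map_add, map_add, map_add, Finsupp.add_apply, Finsupp.add_apply, hx, hy]
    rfl
  | tmul a p =>
    have h1 : comp R E A m (a ⊗ₜ p) = a m ⊗ₜ p := rfl
    rw [h1, Algebra.TensorProduct.basis_repr_tmul, Algebra.TensorProduct.basis_repr_tmul]
    simp

include e in
/-- (B11) An element of `(∏ A_m) ⊗ E` is determined by its components. (Compare coordinates.) -/
theorem comp_injective (z w : (∀ m, A m) ⊗[R] E) (h : ∀ m, comp R E A m z = comp R E A m w) :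
    z = w := by
  apply (Algebra.TensorProduct.basis (∀ m, A m) e).repr.injective
  ext i m
  rw [← B11_repr, ← B11_repr, h]
-- END B11

-- BEGIN B12
theorem B12_repr_comp (m : ℕ) (z : (∀ m, A m) ⊗[R] E) (k : Fin n × ℕ) :
    (Algebra.TensorProduct.basis (A m) e).repr (comp R E A m z) k =
      (Algebra.TensorProduct.basis (∀ m, A m) e).repr z k m := by
  induction z using TensorProduct.induction_on with
  | zero => simp
  | tmul a y =>
    rw [comp, Algebra.TensorProduct.map_tmul, Algebra.TensorProduct.basis_repr_tmul,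
      Algebra.TensorProduct.basis_repr_tmul, Finsupp.smul_apply, Finsupp.smul_apply,
      Finsupp.mapRange_apply, Finsupp.mapRange_apply]
    rfl
  | add z w hz hw =>
    rw [map_add, map_add, map_add, Finsupp.add_apply, Finsupp.add_apply, hz, hw]
    rfl

/-- (B12) A family of bounded degree comes from an element of `(∏ A_m) ⊗ E`. -/
theorem exists_of_bdd (d : ℕ) (z : ∀ m, A m ⊗[R] E) (hz : ∀ m, Bdd e (A m) d (z m)) :
    ∃ w : (∀ m, A m) ⊗[R] E, ∀ m, comp R E A m w = z m := by
  classical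
  let S : Finset (Fin n × ℕ) := Finset.univ ×ˢ Finset.range (d + 1)
  let c : Fin n × ℕ → ∀ m, A m := fun k m => (Algebra.TensorProduct.basis (A m) e).repr (z m) k
  refine ⟨∑ k ∈ S, c k • Algebra.TensorProduct.basis (∀ m, A m) e k, fun m => ?_⟩
  apply (Algebra.TensorProduct.basis (A m) e).repr.injective
  ext ⟨j, i⟩
  rw [B12_repr_comp, map_sum, Finsupp.finsetSum_apply, Finset.sum_apply]
  have h1 : ∀ k ∈ S, ((Algebra.TensorProduct.basis (∀ m, A m) e).repr
      (c k • Algebra.TensorProduct.basis (∀ m, A m) e k)) (j, i) m =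
      if k = (j, i) then (Algebra.TensorProduct.basis (A m) e).repr (z m) k else 0 := fun k _ => by
    rw [map_smul, Module.Basis.repr_self, Finsupp.smul_apply, Finsupp.single_apply]
    split_ifs
    · simp [c]
    · simp
  rw [Finset.sum_congr rfl h1, Finset.sum_ite_eq']
  split_ifs with h2
  · rfl
  · have h3 : d < i := by
      by_contra h4
      exact h2 (by simp only [S, Finset.mem_product, Finset.mem_univ, Finset.mem_range, true_and]; omega)
    exact (hz m j i h3).symm
-- END B12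

end assemble

section assemble2

variable {F R E B : Type u} [CommRing F] [CommRing R] [Algebra F R] [CommRing E] [Algebra R E]
  [CommRing B] [Algebra F B] {n n' : ℕ} (e : Module.Basis (Fin n × ℕ) R E)
  (b : Module.Basis (Fin n' × ℕ) F B) (A : ℕ → Type u) [∀ m, CommRing (A m)]
  [∀ m, Algebra R (A m)] [∀ m, Algebra F (A m)]

-- BEGIN B13
private theorem B13_hom {K L P Q : Type u} [CommRing K] [CommRing L] [CommRing P] [CommRing Q]
    [Algebra K P] [Algebra L Q] {k : ℕ} (e : Module.Basis (Fin k × ℕ) L Q) (A : ℕ → Type u)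
    [∀ m, CommRing (A m)] [∀ m, Algebra K (A m)] [∀ m, Algebra L (A m)]
    (φ : ∀ m, P →+* A m ⊗[L] Q)
    (hφ : ∀ m c, φ m (algebraMap K P c) = algebraMap K (A m) c ⊗ₜ 1)
    (h : ∀ z : P, ∃ d, ∀ m, Bdd e (A m) d (φ m z)) :
    ∃ Ψ : (∀ m, A m) ⊗[K] P →ₐ[∀ m, A m] (∀ m, A m) ⊗[L] Q,
      ∀ m a z, comp L Q A m (Ψ (a ⊗ₜ z)) = (a m ⊗ₜ[L] (1 : Q)) * φ m z := by
  have hex : ∀ z : P, ∃ w : (∀ m, A m) ⊗[L] Q, ∀ m, comp L Q A m w = φ m z := by
    intro z
    obtain ⟨d, hd⟩ := h z
    exact exists_of_bdd e A d (fun m => φ m z) hd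
  choose s hs using hex
  let sh : P →ₐ[K] (∀ m, A m) ⊗[L] Q :=
    { toFun := s
      map_one' := comp_injective e A _ _ fun m => by rw [hs, map_one, map_one]
      map_mul' := fun z w => comp_injective e A _ _ fun m => by
        rw [hs, map_mul, map_mul, hs, hs]
      map_zero' := comp_injective e A _ _ fun m => by rw [hs, map_zero, map_zero]
      map_add' := fun z w => comp_injective e A _ _ fun m => by
        rw [hs, map_add, map_add, hs, hs]
      commutes' := fun c => comp_injective e A _ _ fun m => by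
        rw [hs, hφ, Algebra.TensorProduct.algebraMap_apply]
        simp [comp] }
  refine ⟨Algebra.TensorProduct.lift (Algebra.ofId _ _) sh (fun _ _ => Commute.all _ _), ?_⟩
  intro m a z
  rw [Algebra.TensorProduct.lift_tmul, map_mul]
  have h1 : comp L Q A m (sh z) = φ m z := hs z m
  rw [h1]
  congr 1

/-- (B13) Isomorphisms `A_m ⊗ B ≃ A_m ⊗ E` of uniformly bounded degree (in both directions) on every
element are the components of an isomorphism over the product. Proof: for `z : B` the family `Φ m (1 ⊗ z)`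
is given by a unique `s z` (B11, B12); `s` is a ring homomorphism, `F`-linear, so it extends to
`S ⊗ B → S ⊗ E` (`S = ∏ A_m`); similarly for the inverse; the compositions are the identity by (B11). -/
theorem exists_equiv_pi [∀ m, IsScalarTower F R (A m)] (Φ : ∀ m, A m ⊗[F] B ≃ₐ[A m] A m ⊗[R] E)
    (h : ∀ z : B, ∃ d, ∀ m, Bdd e (A m) d (Φ m (1 ⊗ₜ z)))
    (h' : ∀ y : E, ∃ d, ∀ m, Bdd b (A m) d ((Φ m).symm (1 ⊗ₜ y))) :
    ∃ Ψ : (∀ m, A m) ⊗[F] B ≃ₐ[∀ m, A m] (∀ m, A m) ⊗[R] E,
      ∀ m z, comp R E A m (Ψ z) = Φ m (comp F B A m z) := by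
  obtain ⟨Ψ, hΨ⟩ := B13_hom (K := F) (L := R) (P := B) (Q := E) e A
    (fun m => ((Φ m).toAlgHom.toRingHom).comp
      (Algebra.TensorProduct.includeRight : B →ₐ[F] A m ⊗[F] B).toRingHom)
    (by
      intro m c
      show Φ m ((1 : A m) ⊗ₜ[F] algebraMap F B c) = _
      have h1 : (1 : A m) ⊗ₜ[F] algebraMap F B c = algebraMap (A m) _ (algebraMap F (A m) c) := by
        rw [Algebra.TensorProduct.algebraMap_apply, Algebra.algebraMap_eq_smul_one,
          Algebra.algebraMap_eq_smul_one, TensorProduct.tmul_smul, TensorProduct.smul_tmul',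
          algebraMap_smul]
      rw [h1, AlgEquiv.commutes]
      rfl)
    h
  obtain ⟨Ψ', hΨ'⟩ := B13_hom (K := R) (L := F) (P := E) (Q := B) b A
    (fun m => ((Φ m).symm.toAlgHom.toRingHom).comp
      (Algebra.TensorProduct.includeRight : E →ₐ[R] A m ⊗[R] E).toRingHom)
    (by
      intro m c
      show (Φ m).symm ((1 : A m) ⊗ₜ[R] algebraMap R E c) = _
      have h1 : (1 : A m) ⊗ₜ[R] algebraMap R E c = algebraMap (A m) _ (algebraMap R (A m) c) := by
        rw [Algebra.TensorProduct.algebraMap_apply, Algebra.algebraMap_eq_smul_one,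
          Algebra.algebraMap_eq_smul_one, TensorProduct.tmul_smul, TensorProduct.smul_tmul',
          algebraMap_smul]
      rw [h1, AlgEquiv.commutes]
      rfl)
    h'
  have k1 : ∀ m z, comp R E A m (Ψ z) = Φ m (comp F B A m z) := by
    intro m z
    induction z using TensorProduct.induction_on with
    | zero => simp only [map_zero]
    | add z w hz hw => simp only [map_add, hz, hw]
    | tmul a z =>
      rw [hΨ]
      show (a m ⊗ₜ[R] (1 : E)) * Φ m ((1 : A m) ⊗ₜ[F] z) = Φ m (a m ⊗ₜ[F] z)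
      have h2 : (a m ⊗ₜ[F] z : A m ⊗[F] B) = algebraMap (A m) _ (a m) * ((1 : A m) ⊗ₜ[F] z) := by
        rw [Algebra.TensorProduct.algebraMap_apply, Algebra.TensorProduct.tmul_mul_tmul]
        simp
      rw [h2, map_mul, AlgEquiv.commutes]
      rfl
  have k2 : ∀ m z, comp F B A m (Ψ' z) = (Φ m).symm (comp R E A m z) := by
    intro m z
    induction z using TensorProduct.induction_on with
    | zero => simp only [map_zero]
    | add z w hz hw => simp only [map_add, hz, hw]
    | tmul a z =>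
      rw [hΨ']
      show (a m ⊗ₜ[F] (1 : B)) * (Φ m).symm ((1 : A m) ⊗ₜ[R] z) = (Φ m).symm (a m ⊗ₜ[R] z)
      have h2 : (a m ⊗ₜ[R] z : A m ⊗[R] E) = algebraMap (A m) _ (a m) * ((1 : A m) ⊗ₜ[R] z) := by
        rw [Algebra.TensorProduct.algebraMap_apply, Algebra.TensorProduct.tmul_mul_tmul]
        simp
      rw [h2, map_mul, AlgEquiv.commutes]
      rfl
  refine ⟨AlgEquiv.ofAlgHom Ψ Ψ' ?_ ?_, k1⟩
  · apply AlgHom.ext
    intro z
    apply comp_injective e A
    intro m
    show comp R E A m (Ψ (Ψ' z)) = comp R E A m z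
    rw [k1, k2, AlgEquiv.apply_symm_apply]
  · apply AlgHom.ext
    intro z
    apply comp_injective b A
    intro m
    show comp F B A m (Ψ' (Ψ z)) = comp F B A m z
    rw [k2, k1, AlgEquiv.symm_apply_apply]
-- END B13

end assemble2

section descend

-- BEGIN B14
private theorem B14_inj {K T S P : Type u} [CommRing K] [CommRing T] [CommRing S] [CommRing P]
    [Algebra K T] [Algebra K S] [Algebra K P] [Module.Flat K P] (f : T →ₐ[K] S)
    (hf : Function.Injective f) :
    Function.Injective (Algebra.TensorProduct.map f (AlgHom.id K P)) :=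
  Module.Flat.rTensor_preserves_injective_linearMap (M := P) f.toLinearMap hf

private theorem B14_mem {K S P : Type u} [CommRing K] [CommRing S] [CommRing P]
    [Algebra K S] [Algebra K P] (x : S ⊗[K] P) :
    ∃ X : Finset S, ∀ (T : Type u) [CommRing T] [Algebra K T] (f : T →ₐ[K] S),
      (∀ a ∈ X, ∃ t, f t = a) → ∃ w, Algebra.TensorProduct.map f (AlgHom.id K P) w = x := by
  classical
  induction x using TensorProduct.induction_on with
  | zero => exact ⟨∅, fun T _ _ f _ => ⟨0, map_zero _⟩⟩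
  | tmul a p =>
    refine ⟨{a}, fun T _ _ f h => ?_⟩
    obtain ⟨t, ht⟩ := h a (Finset.mem_singleton_self a)
    exact ⟨t ⊗ₜ p, by rw [Algebra.TensorProduct.map_tmul, ht]; rfl⟩
  | add x y hx hy =>
    obtain ⟨X, hX⟩ := hx
    obtain ⟨Y, hY⟩ := hy
    refine ⟨X ∪ Y, fun T _ _ f h => ?_⟩
    obtain ⟨w, hw⟩ := hX T f fun a ha => h a (Finset.mem_union_left _ ha)
    obtain ⟨w', hw'⟩ := hY T f fun a ha => h a (Finset.mem_union_right _ ha)
    exact ⟨w + w', by rw [map_add, hw, hw']⟩

private theorem B14_hom {T P Q S1 S2 : Type u} [CommRing T] [CommRing P] [CommRing Q]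
    [CommRing S1] [CommRing S2] [Algebra T P] [Algebra T Q] (ι : Q →+* S2)
    (hι : Function.Injective ι) (κ : P →+* S1) (Ψ : S1 →+* S2)
    (h : ∀ w', ∃ w, ι w = Ψ (κ w'))
    (hT : ∀ t, ι (algebraMap T Q t) = Ψ (κ (algebraMap T P t))) :
    ∃ f : P →ₐ[T] Q, ∀ w', ι (f w') = Ψ (κ w') := by
  choose g hg using h
  refine ⟨{ toFun := g
            map_one' := hι (by rw [hg, map_one, map_one, map_one])
            map_mul' := fun x y => hι (by rw [hg, map_mul, map_mul, map_mul, hg, hg])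
            map_zero' := hι (by rw [hg, map_zero, map_zero, map_zero])
            map_add' := fun x y => hι (by rw [hg, map_add, map_add, map_add, hg, hg])
            commutes' := fun t => hι (by rw [hg, hT]) }, fun w' => hg w'⟩

/-- a generated algebra: all elements of `Q` -/
private theorem B14_all {K L T S P Q : Type u} [CommRing K] [CommRing L] [CommRing T] [CommRing S]
    [CommRing P] [CommRing Q] [Algebra K T] [Algebra K S] [Algebra L T] [Algebra L S] [Algebra K P]
    [Algebra L Q] (f : T →ₐ[K] S) (g : T →ₐ[L] S) (hfg : ∀ t, f t = g t)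
    (Ψ : S ⊗[K] P ≃ₐ[S] S ⊗[L] Q) (Y : Set P) (hY : Algebra.adjoin K Y = ⊤)
    (h : ∀ z ∈ Y, ∃ w, Algebra.TensorProduct.map g (AlgHom.id L Q) w = Ψ (1 ⊗ₜ z))
    (w' : T ⊗[K] P) :
    ∃ w, Algebra.TensorProduct.map g (AlgHom.id L Q) w =
      Ψ (Algebra.TensorProduct.map f (AlgHom.id K P) w') := by
  have hz : ∀ z : P, ∃ w, Algebra.TensorProduct.map g (AlgHom.id L Q) w = Ψ (1 ⊗ₜ z) := by
    intro z
    have hz : z ∈ Algebra.adjoin K Y := by rw [hY]; trivial
    induction hz using Algebra.adjoin_induction with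
    | mem x hx => exact h x hx
    | algebraMap c =>
      refine ⟨(algebraMap K T c) ⊗ₜ 1, ?_⟩
      have h1 : (1 : S) ⊗ₜ[K] algebraMap K P c = algebraMap S _ (algebraMap K S c) := by
        rw [Algebra.TensorProduct.algebraMap_apply, Algebra.algebraMap_eq_smul_one,
          Algebra.algebraMap_eq_smul_one, TensorProduct.tmul_smul, TensorProduct.smul_tmul',
          algebraMap_smul]
      rw [h1, AlgEquiv.commutes, Algebra.TensorProduct.map_tmul, ← hfg, AlgHom.commutes, map_one]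
      rfl
    | add x y _ _ hx hy =>
      obtain ⟨w, hw⟩ := hx
      obtain ⟨v, hv⟩ := hy
      exact ⟨w + v, by rw [map_add, hw, hv, TensorProduct.tmul_add, map_add]⟩
    | mul x y _ _ hx hy =>
      obtain ⟨w, hw⟩ := hx
      obtain ⟨v, hv⟩ := hy
      refine ⟨w * v, ?_⟩
      rw [map_mul, hw, hv, ← map_mul, Algebra.TensorProduct.tmul_mul_tmul, one_mul]
  induction w' using TensorProduct.induction_on with
  | zero => exact ⟨0, by simp only [map_zero]⟩
  | add x y hx hy =>
    obtain ⟨w, hw⟩ := hx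
    obtain ⟨v, hv⟩ := hy
    exact ⟨w + v, by simp only [map_add, hw, hv]⟩
  | tmul t z =>
    obtain ⟨w, hw⟩ := hz z
    refine ⟨(t ⊗ₜ 1) * w, ?_⟩
    rw [map_mul, hw, Algebra.TensorProduct.map_tmul, Algebra.TensorProduct.map_tmul, map_one]
    have h2 : (f t ⊗ₜ[K] (AlgHom.id K P) z : S ⊗[K] P) = algebraMap S _ (f t) * (1 ⊗ₜ z) := by
      rw [Algebra.TensorProduct.algebraMap_apply, Algebra.TensorProduct.tmul_mul_tmul]
      simp
    rw [h2, map_mul, AlgEquiv.commutes, hfg]
    rfl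

/-- (B14) An isomorphism over `S` descends to a finitely generated `R`-subalgebra `T` of `S`: let `T` be
generated by the coordinates of the images `Ψ (1 ⊗ b_i)`, `Ψ⁻¹ (1 ⊗ e_j)` of generators `b_i` of the
`F`-algebra `B` and `e_j` of the `R`-algebra `E`. Use that `T ⊗ E → S ⊗ E` and `T ⊗ B → S ⊗ B` are injective since `E`
and `B` are free. -/
theorem exists_descent {F R S E B : Type u} [Field F] [CommRing R] [Algebra F R] [CommRing S]
    [Algebra R S] [Algebra F S] [IsScalarTower F R S] [CommRing E] [Algebra R E] [CommRing B]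
    [Algebra F B] [Module.Free R E] [Algebra.FiniteType R E] [Algebra.FiniteType F B]
    (Ψ : S ⊗[F] B ≃ₐ[S] S ⊗[R] E) :
    ∃ (T : Subalgebra R S) (_ : T.FG) (Ψ' : T ⊗[F] B ≃ₐ[T] T ⊗[R] E), ∀ z : B,
      Algebra.TensorProduct.map (T.val) (AlgHom.id R E) (Ψ' (1 ⊗ₜ z)) = Ψ (1 ⊗ₜ z) := by
  classical
  obtain ⟨sB, hsB⟩ := (Algebra.FiniteType.out : (⊤ : Subalgebra F B).FG)
  obtain ⟨sE, hsE⟩ := (Algebra.FiniteType.out : (⊤ : Subalgebra R E).FG)
  choose XB hXB using fun z : B => B14_mem (K := R) (S := S) (P := E) (Ψ (1 ⊗ₜ z))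
  choose XE hXE using fun z : E => B14_mem (K := F) (S := S) (P := B) (Ψ.symm (1 ⊗ₜ z))
  let X : Finset S := sB.biUnion XB ∪ sE.biUnion XE
  let T : Subalgebra R S := Algebra.adjoin R (X : Set S)
  have hT : T.FG := ⟨X, rfl⟩
  let f : T →ₐ[F] S := IsScalarTower.toAlgHom F T S
  have hmem : ∀ a ∈ X, ∃ t : T, (t : S) = a := fun a ha =>
    ⟨⟨a, Algebra.subset_adjoin ha⟩, rfl⟩
  have hinjR : Function.Injective (Algebra.TensorProduct.map (T.val) (AlgHom.id R E)) :=
    B14_inj _ Subtype.val_injective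
  have hinjF : Function.Injective (Algebra.TensorProduct.map f (AlgHom.id F B)) :=
    B14_inj _ Subtype.val_injective
  have hB : ∀ w' : T ⊗[F] B, ∃ w, Algebra.TensorProduct.map (T.val) (AlgHom.id R E) w =
      Ψ (Algebra.TensorProduct.map f (AlgHom.id F B) w') := by
    intro w'
    refine B14_all f T.val (fun t => rfl) Ψ (sB : Set B) hsB ?_ w'
    intro z hz
    exact hXB z T T.val fun a ha => hmem a
      (Finset.mem_union_left _ (Finset.mem_biUnion.mpr ⟨z, hz, ha⟩))
  have hE : ∀ w' : T ⊗[R] E, ∃ w, Algebra.TensorProduct.map f (AlgHom.id F B) w =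
      Ψ.symm (Algebra.TensorProduct.map (T.val) (AlgHom.id R E) w') := by
    intro w'
    refine B14_all T.val f (fun t => rfl) Ψ.symm (sE : Set E) hsE ?_ w'
    intro z hz
    exact hXE z T f fun a ha => hmem a
      (Finset.mem_union_right _ (Finset.mem_biUnion.mpr ⟨z, hz, ha⟩))
  obtain ⟨φ, hφ⟩ := B14_hom (T := T)
    (Algebra.TensorProduct.map (T.val) (AlgHom.id R E)).toRingHom hinjR
    (Algebra.TensorProduct.map f (AlgHom.id F B)).toRingHom Ψ.toRingEquiv.toRingHom hB
    (by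
      intro t
      show Algebra.TensorProduct.map (T.val) (AlgHom.id R E) (t ⊗ₜ 1) =
        Ψ (Algebra.TensorProduct.map f (AlgHom.id F B) (t ⊗ₜ 1))
      rw [Algebra.TensorProduct.map_tmul, Algebra.TensorProduct.map_tmul, map_one, map_one]
      exact (Ψ.commutes (t : S)).symm)
  obtain ⟨φ', hφ'⟩ := B14_hom (T := T)
    (Algebra.TensorProduct.map f (AlgHom.id F B)).toRingHom hinjF
    (Algebra.TensorProduct.map (T.val) (AlgHom.id R E)).toRingHom Ψ.symm.toRingEquiv.toRingHom hE
    (by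
      intro t
      show Algebra.TensorProduct.map f (AlgHom.id F B) (t ⊗ₜ 1) =
        Ψ.symm (Algebra.TensorProduct.map (T.val) (AlgHom.id R E) (t ⊗ₜ 1))
      rw [Algebra.TensorProduct.map_tmul, Algebra.TensorProduct.map_tmul, map_one, map_one]
      exact (Ψ.symm.commutes (t : S)).symm)
  have kφ : ∀ w, Algebra.TensorProduct.map (T.val) (AlgHom.id R E) (φ w) =
      Ψ (Algebra.TensorProduct.map f (AlgHom.id F B) w) := hφ
  have kφ' : ∀ w, Algebra.TensorProduct.map f (AlgHom.id F B) (φ' w) =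
      Ψ.symm (Algebra.TensorProduct.map (T.val) (AlgHom.id R E) w) := hφ'
  refine ⟨T, hT, AlgEquiv.ofAlgHom φ φ' ?_ ?_, ?_⟩
  · apply AlgHom.ext
    intro w
    apply hinjR
    show Algebra.TensorProduct.map (T.val) (AlgHom.id R E) (φ (φ' w)) =
      Algebra.TensorProduct.map (T.val) (AlgHom.id R E) w
    rw [kφ, kφ', AlgEquiv.apply_symm_apply]
  · apply AlgHom.ext
    intro w
    apply hinjF
    show Algebra.TensorProduct.map f (AlgHom.id F B) (φ' (φ w)) =
      Algebra.TensorProduct.map f (AlgHom.id F B) w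
    rw [kφ', kφ, AlgEquiv.symm_apply_apply]
  · intro z
    show Algebra.TensorProduct.map (T.val) (AlgHom.id R E) (φ (1 ⊗ₜ z)) = _
    rw [kφ, Algebra.TensorProduct.map_tmul, map_one]
    rfl
-- END B14

end descend

end Pool.Agent.Lib.MP_211349_ag
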