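import Pool.Agent.Lib.MP_211349_ag.Mg.G003
import Pool.Agent.Lib.MP_211349_ag.T.Bound

/-!
# Constancy modulo powers of a maximal ideal
-/

open TensorProduct

universe u

noncomputable section

namespace Pool.Agent.Lib.MP_211349_ag

/-- The ring `B₀` is the reduction of the `R`-algebra `E` at the point `ε : R → F`. -/
structure Red (F R P E B₀ : Type u) [CommRing F] [CommRing R] [CommRing P] [CommRing E]
    [CommRing B₀] [Algebra F R] [Algebra R E] [Algebra P E] [Algebra F B₀] [Algebra P B₀]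
    (ε : R →ₐ[F] F) where
  rd : E →+* B₀
  surj : Function.Surjective rd
  ker : RingHom.ker rd = (RingHom.ker ε).map (algebraMap R E)
  hR : ∀ r, rd (algebraMap R E r) = algebraMap F B₀ (ε r)
  hP : ∀ p, rd (algebraMap P E p) = algebraMap P B₀ p

section one

variable {F R P E B₀ : Type u} [Field F] [CommRing R] [CommRing P] [CommRing E] [CommRing B₀]
  [Algebra F R] [Algebra F P] [Algebra R E] [Algebra F E] [Algebra P E] [Algebra F B₀]
  [Algebra P B₀] [IsScalarTower F R E] [IsScalarTower F P E] [IsScalarTower F P B₀]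
  {ε : R →ₐ[F] F} (ρ : Red F R P E B₀ ε)

include ρ

-- BEGIN L1
omit ρ in
private theorem L1_etale {Λ₀ Λ E C : Type u} [CommRing Λ₀] [CommRing Λ] [CommRing E]
    [CommRing C] (i : Λ₀ →+* E) (hi : i.Etale) (j : Λ₀ →+* Λ) (k : Λ →+* C) (h : E →+* C)
    (comm : h.comp i = k.comp j) (hj : Function.Surjective j) (hh : Function.Surjective h)
    (hker : ∀ z, h z = 0 → z ∈ (RingHom.ker j).map i) : k.Etale := by
  let _ : Algebra Λ₀ E := i.toAlgebra
  let _ : Algebra Λ₀ Λ := j.toAlgebra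
  let _ : Algebra Λ C := k.toAlgebra
  let _ : Algebra Λ₀ C := (k.comp j).toAlgebra
  have : IsScalarTower Λ₀ Λ C := IsScalarTower.of_algebraMap_eq fun _ => rfl
  have : Algebra.Etale Λ₀ E := hi
  let h' : E →ₐ[Λ₀] C := { h with commutes' := fun r => RingHom.congr_fun comm r }
  let φ : Λ ⊗[Λ₀] E →ₐ[Λ] C := Algebra.TensorProduct.lift (Algebra.ofId Λ C) h'
    (fun _ _ => Commute.all _ _)
  have hφ : ∀ a z, φ (a ⊗ₜ z) = k a * h z := fun a z => rfl
  have hone : ∀ t : Λ ⊗[Λ₀] E, ∃ z : E, t = 1 ⊗ₜ z := by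
    intro t
    induction t using TensorProduct.induction_on with
    | zero => exact ⟨0, by rw [TensorProduct.tmul_zero]⟩
    | tmul a z =>
      obtain ⟨a₀, rfl⟩ := hj a
      refine ⟨i a₀ * z, ?_⟩
      have h1 : j a₀ = a₀ • (1 : Λ) := by rw [Algebra.smul_def, mul_one]; rfl
      have h2 : i a₀ * z = a₀ • z := by rw [Algebra.smul_def]; rfl
      rw [h1, h2, TensorProduct.smul_tmul]
    | add s t hs ht =>
      obtain ⟨z, rfl⟩ := hs
      obtain ⟨w, rfl⟩ := ht
      exact ⟨z + w, by rw [TensorProduct.tmul_add]⟩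
  have hbij : Function.Bijective φ := by
    constructor
    · rw [injective_iff_map_eq_zero]
      intro t ht
      obtain ⟨z, rfl⟩ := hone t
      rw [hφ, map_one, one_mul] at ht
      have h1 := hker z ht
      have h2 : (RingHom.ker j).map i ≤
          RingHom.ker (Algebra.TensorProduct.includeRight : E →ₐ[Λ₀] Λ ⊗[Λ₀] E) := by
        rw [Ideal.map_le_iff_le_comap]
        intro a ha
        rw [Ideal.mem_comap, RingHom.mem_ker, Algebra.TensorProduct.includeRight_apply]
        have h3 : i a = a • (1 : E) := by rw [Algebra.smul_def, mul_one]; rfl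
        have h4 : a • (1 : Λ) = 0 := by
          rw [Algebra.smul_def, mul_one]; exact ha
        rw [h3, ← TensorProduct.smul_tmul, h4, TensorProduct.zero_tmul]
      have h5 := h2 h1
      rwa [RingHom.mem_ker, Algebra.TensorProduct.includeRight_apply] at h5
    · intro c
      obtain ⟨z, rfl⟩ := hh c
      exact ⟨1 ⊗ₜ z, by rw [hφ, map_one, one_mul]⟩
  exact Algebra.Etale.of_equiv (AlgEquiv.ofBijective φ hbij)

/-- (L1) The reduction is étale over `P`: `P → B₀` is the base change of `R ⊗ P → E` along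
`ε ⊗ id : R ⊗ P → P`. -/
theorem Red.etale (hE : (lam F R P E).Etale) : Algebra.Etale P B₀ := by
  rw [← RingHom.etale_algebraMap]
  let j : R ⊗[F] P →ₐ[F] P := Algebra.TensorProduct.productMap
    ((Algebra.ofId F P).comp ε) (AlgHom.id F P)
  have hj : ∀ r p, j (r ⊗ₜ p) = algebraMap F P (ε r) * p := fun r p => rfl
  refine L1_etale (lam F R P E) hE j.toRingHom (algebraMap P B₀) ρ.rd ?_ ?_ ρ.surj ?_
  · refine RingHom.ext fun t => ?_
    induction t using TensorProduct.induction_on with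
    | zero => simp
    | tmul r p =>
      change ρ.rd (algebraMap R E r * algebraMap P E p) = algebraMap P B₀ (j (r ⊗ₜ p))
      rw [map_mul, ρ.hR, ρ.hP, hj, map_mul, ← IsScalarTower.algebraMap_apply F P B₀]
    | add s t hs ht => rw [map_add, map_add, hs, ht]
  · intro p
    refine ⟨1 ⊗ₜ p, ?_⟩
    change j (1 ⊗ₜ p) = p
    rw [hj, map_one, map_one, one_mul]
  · intro z hz
    have h1 : z ∈ RingHom.ker ρ.rd := hz
    rw [ρ.ker] at h1
    refine (Ideal.map_le_iff_le_comap.2 ?_ : (RingHom.ker ε).map (algebraMap R E) ≤ _) h1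
    intro r hr
    rw [Ideal.mem_comap]
    have h2 : algebraMap R E r = lam F R P E (r ⊗ₜ 1) := by
      change _ = algebraMap R E r * algebraMap P E 1
      rw [map_one, mul_one]
    rw [h2]
    apply Ideal.mem_map_of_mem
    change j (r ⊗ₜ 1) = 0
    rw [hj, RingHom.mem_ker.1 hr, map_zero, zero_mul]
-- END L1

-- BEGIN L2
/-- (L2) The reduction of an adapted basis. -/
theorem Red.exists_basis {n : ℕ} (x : P) (e : Module.Basis (Fin n × ℕ) R E)
    (he : ∀ j i, algebraMap P E x * e (j, i) = e (j, i + 1)) :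
    ∃ b : Module.Basis (Fin n × ℕ) F B₀, (∀ j i, b (j, i) = ρ.rd (e (j, i))) ∧
      ∀ j i, algebraMap P B₀ x * b (j, i) = b (j, i + 1) := by
  have hrd : ∀ (r : R) (z : E), ρ.rd (r • z) = ε r • ρ.rd z := by
    intro r z
    rw [Algebra.smul_def, map_mul, ρ.hR, Algebra.smul_def]
  have hcoord : ∀ (z : E), ρ.rd z = 0 → ∀ i, ε (e.repr z i) = 0 := by
    intro z hz i
    have h1 : z ∈ RingHom.ker ρ.rd := hz
    rw [ρ.ker] at h1
    have h2 : z ∈ ((RingHom.ker ε) • (⊤ : Submodule R E)) := by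
      rw [Ideal.smul_top_eq_map]
      exact h1
    refine Submodule.smul_induction_on h2 (fun r hr y _ => ?_) (fun y z hy hz => ?_)
    · rw [map_smul, Finsupp.smul_apply, smul_eq_mul, map_mul, RingHom.mem_ker.1 hr, zero_mul]
    · rw [map_add, Finsupp.add_apply, map_add, hy, hz, add_zero]
  have hli : LinearIndependent F (fun i => ρ.rd (e i)) := by
    rw [linearIndependent_iff']
    intro s g hg i hi
    have h1 : ρ.rd (∑ i ∈ s, algebraMap F R (g i) • e i) = 0 := by
      rw [map_sum, ← hg]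
      refine Finset.sum_congr rfl fun i _ => ?_
      rw [hrd, AlgHom.commutes]
      rfl
    have h2 := hcoord _ h1 i
    rw [map_sum, Finset.sum_apply'] at h2
    rw [Finset.sum_eq_single i] at h2
    · rw [map_smul, Finsupp.smul_apply, Module.Basis.repr_self, Finsupp.single_eq_same,
        smul_eq_mul, mul_one, AlgHom.commutes] at h2
      exact h2
    · intro k _ hki
      rw [map_smul, Finsupp.smul_apply, Module.Basis.repr_self, Finsupp.single_apply, if_neg hki,
        smul_zero]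
    · intro h
      exact absurd hi h
  have hsp : ⊤ ≤ Submodule.span F (Set.range fun i => ρ.rd (e i)) := by
    intro y _
    obtain ⟨z, rfl⟩ := ρ.surj y
    rw [← e.linearCombination_repr z, Finsupp.linearCombination_apply, Finsupp.sum, map_sum]
    refine Submodule.sum_mem _ fun i _ => ?_
    rw [hrd]
    exact Submodule.smul_mem _ _ (Submodule.subset_span ⟨i, rfl⟩)
  refine ⟨Module.Basis.mk hli hsp, fun j i => Module.Basis.mk_apply _ _ _, fun j i => ?_⟩
  rw [Module.Basis.mk_apply, Module.Basis.mk_apply, ← ρ.hP, ← map_mul, he]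
-- END L2

-- BEGIN L3
/-- (L3) The reduction map `A ⊗ E → B₀` for an `R`-algebra `A` with a point `δ` over `ε`. Its kernel is
generated by the kernel of `δ` (which is surjective). -/
theorem Red.exists_map {A : Type u} [CommRing A] [Algebra R A] [Algebra F A] [IsScalarTower F R A]
    (δ : A →ₐ[F] F) (hδ : ∀ r, δ (algebraMap R A r) = ε r) :
    ∃ f : A ⊗[R] E →+* B₀, Function.Surjective f ∧
      (∀ a z, f (a ⊗ₜ z) = algebraMap F B₀ (δ a) * ρ.rd z) ∧
      (IsNilpotent (RingHom.ker δ) → IsNilpotent (RingHom.ker f)) := by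
  let _ : Algebra R B₀ := ((algebraMap F B₀).comp (ε : R →+* F)).toAlgebra
  let g : A →ₐ[R] B₀ := { (algebraMap F B₀).comp (δ : A →+* F) with
    commutes' := fun r => by
      change algebraMap F B₀ (δ (algebraMap R A r)) = algebraMap F B₀ (ε r)
      rw [hδ] }
  let h : E →ₐ[R] B₀ := { ρ.rd with commutes' := fun r => ρ.hR r }
  let f : A ⊗[R] E →ₐ[R] B₀ := Algebra.TensorProduct.productMap g h
  have hf : ∀ a z, f (a ⊗ₜ z) = algebraMap F B₀ (δ a) * ρ.rd z := fun a z => rfl
  refine ⟨f.toRingHom, ?_, hf, ?_⟩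
  · intro y
    obtain ⟨z, rfl⟩ := ρ.surj y
    refine ⟨1 ⊗ₜ z, ?_⟩
    change f (1 ⊗ₜ z) = _
    rw [hf, map_one, map_one, one_mul]
  · rintro ⟨N, hN⟩
    refine ⟨N, ?_⟩
    let J : Ideal (A ⊗[R] E) := (RingHom.ker δ).map
      (Algebra.TensorProduct.includeLeftRingHom : A →+* A ⊗[R] E)
    have hJ : J ^ N = 0 := by
      change (Ideal.map _ _) ^ N = 0
      rw [← Ideal.map_pow, hN, Ideal.zero_eq_bot, Ideal.map_bot, Ideal.zero_eq_bot]
    have hinc : ∀ a ∈ RingHom.ker δ, ∀ z : E, (a ⊗ₜ[R] z : A ⊗[R] E) ∈ J := by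
      intro a ha z
      have h1 : (a ⊗ₜ[R] z : A ⊗[R] E) =
          Algebra.TensorProduct.includeLeftRingHom a * ((1 : A) ⊗ₜ[R] z) := by
        rw [Algebra.TensorProduct.includeLeftRingHom_apply, Algebra.TensorProduct.tmul_mul_tmul,
          mul_one, one_mul]
      rw [h1]
      exact J.mul_mem_right _ (Ideal.mem_map_of_mem _ ha)
    have hred : ∀ w : A ⊗[R] E, ∃ z : E, w - 1 ⊗ₜ z ∈ J := by
      intro w
      induction w using TensorProduct.induction_on with
      | zero => exact ⟨0, by rw [TensorProduct.tmul_zero, sub_zero]; exact J.zero_mem⟩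
      | tmul a z =>
        refine ⟨algebraMap F R (δ a) • z, ?_⟩
        rw [← TensorProduct.smul_tmul, ← TensorProduct.sub_tmul]
        apply hinc
        rw [RingHom.mem_ker, map_sub, Algebra.smul_def, mul_one, hδ, AlgHom.commutes]
        exact sub_self _
      | add s t hs ht =>
        obtain ⟨z, hz⟩ := hs
        obtain ⟨w, hw⟩ := ht
        refine ⟨z + w, ?_⟩
        rw [TensorProduct.tmul_add, add_sub_add_comm]
        exact J.add_mem hz hw
    have hle : RingHom.ker f.toRingHom ≤ J := by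
      intro w hw
      obtain ⟨z, hz⟩ := hred w
      have hJf : J ≤ RingHom.ker f.toRingHom := by
        refine Ideal.map_le_iff_le_comap.2 fun a ha => ?_
        rw [Ideal.mem_comap, RingHom.mem_ker]
        change f (a ⊗ₜ 1) = 0
        rw [hf, RingHom.mem_ker.1 ha, map_zero, zero_mul]
      have h1 : ρ.rd z = 0 := by
        have h2 : f (w - 1 ⊗ₜ z) = 0 := hJf hz
        have h3 : f w = 0 := hw
        rw [map_sub, h3, hf, map_one, map_one, one_mul, zero_sub, neg_eq_zero] at h2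
        exact h2
      have h4 : z ∈ RingHom.ker ρ.rd := h1
      rw [ρ.ker] at h4
      have h5 : (RingHom.ker ε).map (algebraMap R E) ≤
          J.comap (Algebra.TensorProduct.includeRight : E →ₐ[R] A ⊗[R] E) := by
        refine Ideal.map_le_iff_le_comap.2 fun r hr => ?_
        rw [Ideal.mem_comap, Ideal.mem_comap, Algebra.TensorProduct.includeRight_apply]
        have h6 : (algebraMap R E r) = r • (1 : E) := by rw [Algebra.smul_def, mul_one]
        rw [h6, ← TensorProduct.smul_tmul]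
        apply hinc
        rw [RingHom.mem_ker, Algebra.smul_def, mul_one, hδ]
        exact hr
      have h7 := h5 h4
      rw [Ideal.mem_comap, Algebra.TensorProduct.includeRight_apply] at h7
      have h8 := J.add_mem hz h7
      rwa [sub_add_cancel] at h8
    have := (Ideal.pow_right_mono hle N).trans_eq hJ
    exact le_bot_iff.1 this
-- END L3

-- BEGIN L4
omit ρ in
private theorem L4_lift {Λ X Y D : Type u} [CommRing Λ] [CommRing X] [CommRing Y] [CommRing D]
    (i : Λ →+* X) (hi : i.Etale) (j : Λ →+* Y) (g : X →+* D) (f : Y →+* D)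
    (hf : Function.Surjective f) (hfn : IsNilpotent (RingHom.ker f))
    (comm : g.comp i = f.comp j) : ∃ u : X →+* Y, u.comp i = j ∧ f.comp u = g := by
  let _ : Algebra Λ X := i.toAlgebra
  let _ : Algebra Λ Y := j.toAlgebra
  let _ : Algebra Λ D := (f.comp j).toAlgebra
  have : Algebra.Etale Λ X := hi
  let g' : X →ₐ[Λ] D := { g with commutes' := fun r => RingHom.congr_fun comm r }
  let f' : Y →ₐ[Λ] D := { f with commutes' := fun r => rfl }
  let u := Algebra.FormallySmooth.liftOfSurjective g' f' hf hfn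
  refine ⟨u, ?_, ?_⟩
  · ext r
    exact u.commutes r
  · ext x
    exact Algebra.FormallySmooth.liftOfSurjective_apply g' f' hf hfn x

omit ρ in
private theorem L4_uniq {Λ X Y D : Type u} [CommRing Λ] [CommRing X] [CommRing Y] [CommRing D]
    (i : Λ →+* X) (hi : i.Etale) (u v : X →+* Y) (f : Y →+* D)
    (hfn : IsNilpotent (RingHom.ker f)) (h1 : u.comp i = v.comp i) (h2 : f.comp u = f.comp v) :
    u = v := by
  let _ : Algebra Λ X := i.toAlgebra
  let _ : Algebra Λ Y := (v.comp i).toAlgebra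
  let _ : Algebra Λ D := (f.comp (v.comp i)).toAlgebra
  have : Algebra.Etale Λ X := hi
  let u' : X →ₐ[Λ] Y := { u with commutes' := fun r => RingHom.congr_fun h1 r }
  let v' : X →ₐ[Λ] Y := { v with commutes' := fun r => rfl }
  let f' : Y →ₐ[Λ] D := { f with commutes' := fun r => rfl }
  have h3 : u' = v' := eq_of_lift u' v' f' hfn fun a => RingHom.congr_fun h2 a
  ext x
  exact AlgHom.congr_fun h3 x

/-- (L4) Constancy over a nilpotent thickening `A` of `F`: by (T5) with `Λ = A ⊗ P`; both sides are étale over `Λ`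
and have the reduction `B₀` (via (L3), resp. `a ⊗ b ↦ δ(a) b`, with kernel generated by the kernel of `δ`, (T7)). -/
theorem Red.exists_level_equiv (hE : (lam F R P E).Etale) {A : Type u} [CommRing A] [Algebra R A]
    [Algebra F A] [IsScalarTower F R A] (δ : A →ₐ[F] F) (hδ : ∀ r, δ (algebraMap R A r) = ε r)
    (hδn : IsNilpotent (RingHom.ker δ)) :
    ∃ Φ : A ⊗[F] B₀ ≃ₐ[A] A ⊗[R] E,
      (∀ p, Φ (1 ⊗ₜ algebraMap P B₀ p) = 1 ⊗ₜ algebraMap P E p) ∧
      ∀ f : A ⊗[R] E →+* B₀, (∀ a z, f (a ⊗ₜ z) = algebraMap F B₀ (δ a) * ρ.rd z) →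
        ∀ b, f (Φ (1 ⊗ₜ b)) = b := by
  have hB := ρ.etale hE
  have hB' : (algebraMap P B₀).Etale := RingHom.etale_algebraMap.2 hB
  obtain ⟨f, hfs, hf, hfn⟩ := ρ.exists_map δ hδ
  have hfn := hfn hδn
  -- the reduction of `A ⊗ B₀`
  let f₀ : A ⊗[F] B₀ →ₐ[F] B₀ := Algebra.TensorProduct.productMap
    ((Algebra.ofId F B₀).comp δ) (AlgHom.id F B₀)
  have hf₀ : ∀ a b, f₀ (a ⊗ₜ b) = algebraMap F B₀ (δ a) * b := fun a b => rfl
  have hf₀s : Function.Surjective f₀ := fun b =>
    ⟨1 ⊗ₜ b, by rw [hf₀, map_one, map_one, one_mul]⟩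
  have hf₀n : IsNilpotent (RingHom.ker f₀.toRingHom) := by
    obtain ⟨N, hN⟩ := hδn
    refine ⟨N, ?_⟩
    let J : Ideal (A ⊗[F] B₀) := (RingHom.ker δ).map
      (Algebra.TensorProduct.includeLeftRingHom : A →+* A ⊗[F] B₀)
    have hJ : J ^ N = 0 := by
      change (Ideal.map _ _) ^ N = 0
      rw [← Ideal.map_pow, hN, Ideal.zero_eq_bot, Ideal.map_bot, Ideal.zero_eq_bot]
    have hinc : ∀ a ∈ RingHom.ker δ, ∀ z : B₀, (a ⊗ₜ[F] z : A ⊗[F] B₀) ∈ J := by
      intro a ha z
      have h1 : (a ⊗ₜ[F] z : A ⊗[F] B₀) =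
          Algebra.TensorProduct.includeLeftRingHom a * ((1 : A) ⊗ₜ[F] z) := by
        rw [Algebra.TensorProduct.includeLeftRingHom_apply, Algebra.TensorProduct.tmul_mul_tmul,
          mul_one, one_mul]
      rw [h1]
      exact J.mul_mem_right _ (Ideal.mem_map_of_mem _ ha)
    have hred : ∀ w : A ⊗[F] B₀, w - 1 ⊗ₜ f₀ w ∈ J := by
      intro w
      induction w using TensorProduct.induction_on with
      | zero => rw [map_zero, TensorProduct.tmul_zero, sub_zero]; exact J.zero_mem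
      | tmul a z =>
        rw [hf₀, ← Algebra.smul_def, ← TensorProduct.smul_tmul, ← TensorProduct.sub_tmul]
        apply hinc
        rw [RingHom.mem_ker, map_sub, map_smul, map_one, smul_eq_mul, mul_one, sub_self]
      | add s t hs ht =>
        rw [map_add, TensorProduct.tmul_add, add_sub_add_comm]
        exact J.add_mem hs ht
    have hle : RingHom.ker f₀.toRingHom ≤ J := by
      intro w hw
      have h1 := hred w
      have h2 : f₀ w = 0 := hw
      rwa [h2, TensorProduct.tmul_zero, sub_zero] at h1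
    have := (Ideal.pow_right_mono hle N).trans_eq hJ
    exact le_bot_iff.1 this
  -- the structure maps
  let iE : E →ₐ[R] A ⊗[R] E := Algebra.TensorProduct.includeRight
  let iB : B₀ →ₐ[F] A ⊗[F] B₀ := Algebra.TensorProduct.includeRight
  have hfiE : ∀ z, f (iE z) = ρ.rd z := by
    intro z
    change f (1 ⊗ₜ z) = _
    rw [hf, map_one, map_one, one_mul]
  have hfiB : ∀ b, f₀ (iB b) = b := by
    intro z
    change f₀ (1 ⊗ₜ z) = _
    rw [hf₀, map_one, map_one, one_mul]
  obtain ⟨u, hu1, hu2⟩ := L4_lift (algebraMap P B₀) hB'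
    ((iE : E →+* A ⊗[R] E).comp (algebraMap P E)) (RingHom.id B₀) f hfs hfn (by
      ext p
      change algebraMap P B₀ p = f (iE (algebraMap P E p))
      rw [hfiE, ρ.hP])
  -- `A ⊗ B₀` as an algebra over `R ⊗ P`
  let k : R ⊗[F] P →ₐ[F] A ⊗[F] B₀ :=
    Algebra.TensorProduct.map (IsScalarTower.toAlgHom F R A) (IsScalarTower.toAlgHom F P B₀)
  have hk : ∀ r p, k (r ⊗ₜ p) = algebraMap R A r ⊗ₜ algebraMap P B₀ p := fun r p => rfl
  have hlam : ∀ r p, lam F R P E (r ⊗ₜ p) = algebraMap R E r * algebraMap P E p := fun r p => rfl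
  obtain ⟨w, hw1, hw2⟩ := L4_lift (lam F R P E) hE (k : R ⊗[F] P →+* A ⊗[F] B₀) ρ.rd
    (f₀ : A ⊗[F] B₀ →+* B₀) hf₀s hf₀n (by
      refine RingHom.ext fun t => ?_
      induction t using TensorProduct.induction_on with
      | zero => simp
      | tmul r p =>
        change ρ.rd (lam F R P E (r ⊗ₜ p)) = f₀ (k (r ⊗ₜ p))
        rw [hlam, hk, map_mul, ρ.hR, ρ.hP, hf₀, hδ]
      | add s t hs ht => rw [map_add, map_add, hs, ht])
  have hu1' : ∀ p, u (algebraMap P B₀ p) = iE (algebraMap P E p) := fun p =>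
    RingHom.congr_fun hu1 p
  have hu2' : ∀ b, f (u b) = b := fun b => RingHom.congr_fun hu2 b
  have hw1' : ∀ r p, w (algebraMap R E r * algebraMap P E p) =
      algebraMap R A r ⊗ₜ algebraMap P B₀ p := fun r p => RingHom.congr_fun hw1 (r ⊗ₜ p)
  have hw2' : ∀ z, f₀ (w z) = ρ.rd z := fun z => RingHom.congr_fun hw2 z
  have hwR : ∀ r, w (algebraMap R E r) = algebraMap R A r ⊗ₜ 1 := by
    intro r
    have := hw1' r 1
    rwa [map_one, mul_one, map_one] at this
  have hwP : ∀ p, w (algebraMap P E p) = 1 ⊗ₜ algebraMap P B₀ p := by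
    intro p
    have := hw1' 1 p
    rwa [map_one, one_mul, map_one] at this
  have huF : ∀ a, u (algebraMap F B₀ a) = algebraMap F (A ⊗[R] E) a := by
    intro a
    rw [IsScalarTower.algebraMap_apply F P B₀, hu1', ← IsScalarTower.algebraMap_apply F P E,
      IsScalarTower.algebraMap_apply F R E, AlgHom.commutes,
      ← IsScalarTower.algebraMap_apply F R (A ⊗[R] E)]
  let u' : B₀ →ₐ[F] A ⊗[R] E := { u with commutes' := huF }
  let Φ : A ⊗[F] B₀ →ₐ[A] A ⊗[R] E := Algebra.TensorProduct.lift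
    (Algebra.ofId A (A ⊗[R] E)) u' (fun _ _ => Commute.all _ _)
  have hΦ : ∀ a b, Φ (a ⊗ₜ b) = algebraMap A (A ⊗[R] E) a * u b := fun a b => rfl
  have hwR' : ∀ r, w (algebraMap R E r) = algebraMap R (A ⊗[F] B₀) r := by
    intro r
    rw [hwR]
    rfl
  let w' : E →ₐ[R] A ⊗[F] B₀ := { w with commutes' := hwR' }
  let Ψ : A ⊗[R] E →ₐ[A] A ⊗[F] B₀ := Algebra.TensorProduct.lift
    (Algebra.ofId A (A ⊗[F] B₀)) w' (fun _ _ => Commute.all _ _)
  have hΨ : ∀ a z, Ψ (a ⊗ₜ z) = algebraMap A (A ⊗[F] B₀) a * w z := fun a z => rfl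
  have hfΦ : ∀ t, f (Φ t) = f₀ t := by
    intro t
    induction t using TensorProduct.induction_on with
    | zero => simp
    | tmul a b =>
      rw [hΦ, hf₀, map_mul, hu2']
      congr 1
      change f (a ⊗ₜ 1) = _
      rw [hf, map_one, mul_one]
    | add s t hs ht => rw [map_add, map_add, map_add, hs, ht]
  have hfΨ : ∀ t, f₀ (Ψ t) = f t := by
    intro t
    induction t using TensorProduct.induction_on with
    | zero => simp
    | tmul a b =>
      rw [hΨ, hf, map_mul, hw2']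
      congr 1
      change f₀ (a ⊗ₜ 1) = _
      rw [hf₀, mul_one]
    | add s t hs ht => rw [map_add, map_add, map_add, hs, ht]
  -- the compositions
  have hc1 : ∀ b, Ψ (u b) = iB b := by
    have h := L4_uniq (algebraMap P B₀) hB' ((Ψ : A ⊗[R] E →+* A ⊗[F] B₀).comp u)
      (iB : B₀ →+* A ⊗[F] B₀) (f₀ : A ⊗[F] B₀ →+* B₀) hf₀n (by
        ext p
        change Ψ (u (algebraMap P B₀ p)) = 1 ⊗ₜ algebraMap P B₀ p
        rw [hu1']
        change Ψ (1 ⊗ₜ algebraMap P E p) = _
        rw [hΨ, map_one, one_mul, hwP]) (by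
        ext b
        change f₀ (Ψ (u b)) = f₀ (iB b)
        rw [hfΨ, hu2', hfiB])
    exact fun b => RingHom.congr_fun h b
  have hc2 : ∀ z, Φ (w z) = iE z := by
    have h := L4_uniq (lam F R P E) hE ((Φ : A ⊗[F] B₀ →+* A ⊗[R] E).comp w)
      (iE : E →+* A ⊗[R] E) f hfn (by
        refine RingHom.ext fun t => ?_
        induction t using TensorProduct.induction_on with
        | zero => simp
        | tmul r p =>
          change Φ (w (lam F R P E (r ⊗ₜ p))) = iE (lam F R P E (r ⊗ₜ p))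
          rw [hlam, hw1', hΦ, hu1', map_mul, AlgHom.commutes]
          congr 1
        | add s t hs ht => rw [map_add, map_add, hs, ht]) (by
        ext z
        change f (Φ (w z)) = f (iE z)
        rw [hfΦ, hw2', hfiE])
    exact fun z => RingHom.congr_fun h z
  have h12 : ∀ t, Ψ (Φ t) = t := by
    intro t
    induction t using TensorProduct.induction_on with
    | zero => simp
    | tmul a b =>
      rw [hΦ, map_mul, hc1, AlgHom.commutes]
      change (a ⊗ₜ 1) * (1 ⊗ₜ b) = _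
      rw [Algebra.TensorProduct.tmul_mul_tmul, mul_one, one_mul]
    | add s t hs ht => rw [map_add, map_add, hs, ht]
  have h21 : ∀ t, Φ (Ψ t) = t := by
    intro t
    induction t using TensorProduct.induction_on with
    | zero => simp
    | tmul a b =>
      rw [hΨ, map_mul, hc2, AlgHom.commutes]
      change (a ⊗ₜ 1) * (1 ⊗ₜ b) = _
      rw [Algebra.TensorProduct.tmul_mul_tmul, mul_one, one_mul]
    | add s t hs ht => rw [map_add, map_add, hs, ht]
  refine ⟨AlgEquiv.ofAlgHom Φ Ψ (AlgHom.ext h21) (AlgHom.ext h12), fun p => ?_, fun f' hf' b => ?_⟩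
  · change Φ (1 ⊗ₜ algebraMap P B₀ p) = _
    rw [hΦ, map_one, one_mul, hu1']
    rfl
  · have hff' : f' = f := by
      refine RingHom.ext fun t => ?_
      induction t using TensorProduct.induction_on with
      | zero => simp
      | tmul a z => rw [hf', hf]
      | add s t hs ht => rw [map_add, map_add, hs, ht]
    rw [hff']
    change f (Φ (1 ⊗ₜ b)) = b
    rw [hΦ, map_one, one_mul, hu2']
-- END L4

end one

section three

variable {F R P P' Q E E' G B₀ B₀' G₀ : Type u} [Field F] [CommRing R] [CommRing P] [CommRing P']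
  [CommRing Q] [CommRing E] [CommRing E'] [CommRing G] [CommRing B₀] [CommRing B₀'] [CommRing G₀]
  [Algebra F R] [Algebra F P] [Algebra F P'] [Algebra F Q] [Algebra P Q] [Algebra P' Q]
  [IsScalarTower F P Q] [IsScalarTower F P' Q]
  [Algebra R E] [Algebra F E] [Algebra P E] [IsScalarTower F R E] [IsScalarTower F P E]
  [Algebra R E'] [Algebra F E'] [Algebra P' E'] [IsScalarTower F R E'] [IsScalarTower F P' E']
  [Algebra R G] [Algebra F G] [Algebra P G] [Algebra P' G] [Algebra Q G] [IsScalarTower F R G]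
  [IsScalarTower P Q G] [IsScalarTower P' Q G] [IsScalarTower F Q G]
  [Algebra E G] [Algebra E' G] [IsScalarTower R E G] [IsScalarTower R E' G] [IsScalarTower P E G]
  [IsScalarTower P' E' G]
  [Algebra F B₀] [Algebra P B₀] [IsScalarTower F P B₀]
  [Algebra F B₀'] [Algebra P' B₀'] [IsScalarTower F P' B₀']
  [Algebra F G₀] [Algebra P G₀] [Algebra P' G₀] [Algebra Q G₀] [IsScalarTower P Q G₀]
  [IsScalarTower P' Q G₀] [IsScalarTower F Q G₀]
  [Algebra B₀ G₀] [Algebra B₀' G₀] [IsScalarTower F B₀ G₀] [IsScalarTower F B₀' G₀]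
  [IsScalarTower P B₀ G₀] [IsScalarTower P' B₀' G₀]
  {ε : R →ₐ[F] F} (ρ : Red F R P E B₀ ε) (ρ' : Red F R P' E' B₀' ε) (ρG : Red F R Q G G₀ ε)
  (hρ : ∀ z, ρG.rd (algebraMap E G z) = algebraMap B₀ G₀ (ρ.rd z))
  (hρ' : ∀ z, ρG.rd (algebraMap E' G z) = algebraMap B₀' G₀ (ρ'.rd z))
  (x : P) (x' : P') [IsLocalization.Away x Q] [IsLocalization.Away x' Q]
  (hxx' : algebraMap P Q x * algebraMap P' Q x' = 1)
  [IsLocalization.Away (algebraMap P E x) G] [IsLocalization.Away (algebraMap P' E' x') G]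
  [IsLocalization.Away (algebraMap P B₀ x) G₀] [IsLocalization.Away (algebraMap P' B₀' x') G₀]
  {A : Type u} [CommRing A] [Algebra R A] [Algebra F A] [IsScalarTower F R A]
  (δ : A →ₐ[F] F) (hδ : ∀ r, δ (algebraMap R A r) = ε r)
  (hδn : IsNilpotent (RingHom.ker δ))
  (Φ : A ⊗[F] B₀ ≃ₐ[A] A ⊗[R] E) (hΦ : ∀ p, Φ (1 ⊗ₜ algebraMap P B₀ p) = 1 ⊗ₜ algebraMap P E p)
  (hΦ' : ∀ f : A ⊗[R] E →+* B₀, (∀ a z, f (a ⊗ₜ z) = algebraMap F B₀ (δ a) * ρ.rd z) →
        ∀ b, f (Φ (1 ⊗ₜ b)) = b)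
  (Ψ : A ⊗[F] B₀' ≃ₐ[A] A ⊗[R] E') (hΨ : ∀ p, Ψ (1 ⊗ₜ algebraMap P' B₀' p) = 1 ⊗ₜ algebraMap P' E' p)
  (hΨ' : ∀ f : A ⊗[R] E' →+* B₀', (∀ a z, f (a ⊗ₜ z) = algebraMap F B₀' (δ a) * ρ'.rd z) →
        ∀ b, f (Ψ (1 ⊗ₜ b)) = b)

include hρ hρ' hδ hδn hΦ hΦ' hΨ hΨ' hxx'

-- BEGIN L5
/-- (L5) The isomorphisms over the two charts are compatible: there is an `A`-algebra homomorphism
`U : A ⊗ G₀ → A ⊗ G` extending both. By (T6) with `Γ = A ⊗ G`, `B = B₀`, `B' = B₀'`, `G = G₀`, `u = Φ (1 ⊗ ·)` followed by `bc`,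
`u' = Ψ (1 ⊗ ·)` followed by `bc`, and the nilpotent surjection `Γ → G₀` of (L3) for `ρG`. (`B₀` is étale over `P` by hypothesis
`hB`.) -/
theorem exists_level_glue (hB : Algebra.Etale P B₀) :
    ∃ U : A ⊗[F] G₀ →ₐ[A] A ⊗[R] G,
      (∀ z : A ⊗[F] B₀, U (bc F B₀ G₀ A z) = bc R E G A (Φ z)) ∧
      ∀ z : A ⊗[F] B₀', U (bc F B₀' G₀ A z) = bc R E' G A (Ψ z) := by
  let aQ : Algebra Q (A ⊗[R] G) :=
    ((Algebra.TensorProduct.includeRight : G →ₐ[R] A ⊗[R] G).toRingHom.comp
      (algebraMap Q G)).toAlgebra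
  let aP : Algebra P (A ⊗[R] G) :=
    ((Algebra.TensorProduct.includeRight : G →ₐ[R] A ⊗[R] G).toRingHom.comp
      (algebraMap P G)).toAlgebra
  let aP' : Algebra P' (A ⊗[R] G) :=
    ((Algebra.TensorProduct.includeRight : G →ₐ[R] A ⊗[R] G).toRingHom.comp
      (algebraMap P' G)).toAlgebra
  have hQ : ∀ q : Q, algebraMap Q (A ⊗[R] G) q = 1 ⊗ₜ algebraMap Q G q := fun _ => rfl
  have hP : ∀ p : P, algebraMap P (A ⊗[R] G) p = 1 ⊗ₜ algebraMap P G p := fun _ => rfl
  have hP' : ∀ p : P', algebraMap P' (A ⊗[R] G) p = 1 ⊗ₜ algebraMap P' G p := fun _ => rfl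
  have : IsScalarTower P Q (A ⊗[R] G) := IsScalarTower.of_algebraMap_eq fun p => by
    rw [hP, hQ, IsScalarTower.algebraMap_apply P Q G]
  have : IsScalarTower P' Q (A ⊗[R] G) := IsScalarTower.of_algebraMap_eq fun p => by
    rw [hP', hQ, IsScalarTower.algebraMap_apply P' Q G]
  obtain ⟨f, -, hf, hfn⟩ := ρG.exists_map δ hδ
  obtain ⟨fE, -, hfE, -⟩ := ρ.exists_map δ hδ
  obtain ⟨fE', -, hfE', -⟩ := ρ'.exists_map δ hδ
  let r : A ⊗[R] G →ₐ[Q] G₀ :=
    { f with
      commutes' := fun q => by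
        show f (algebraMap Q (A ⊗[R] G) q) = algebraMap Q G₀ q
        rw [hQ, hf, map_one, map_one, one_mul, ρG.hP] }
  have hrf : ∀ z, r z = f z := fun _ => rfl
  have hr : IsNilpotent (RingHom.ker r) := by
    have h1 : RingHom.ker r = RingHom.ker f := by
      ext z
      rw [RingHom.mem_ker, RingHom.mem_ker, hrf]
    rw [h1]
    exact hfn hδn
  have hbc : ∀ w : A ⊗[R] E, f (bc R E G A w) = algebraMap B₀ G₀ (fE w) := by
    intro w
    induction w using TensorProduct.induction_on with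
    | zero => simp
    | add a b ha hb => rw [map_add, map_add, map_add, map_add, ha, hb]
    | tmul a z =>
      have h1 : bc R E G A (a ⊗ₜ z) = a ⊗ₜ algebraMap E G z := by
        simp [bc]
      rw [h1, hf, hfE, hρ, map_mul, ← IsScalarTower.algebraMap_apply F B₀ G₀]
  have hbc' : ∀ w : A ⊗[R] E', f (bc R E' G A w) = algebraMap B₀' G₀ (fE' w) := by
    intro w
    induction w using TensorProduct.induction_on with
    | zero => simp
    | add a b ha hb => rw [map_add, map_add, map_add, map_add, ha, hb]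
    | tmul a z =>
      have h1 : bc R E' G A (a ⊗ₜ z) = a ⊗ₜ algebraMap E' G z := by
        simp [bc]
      rw [h1, hf, hfE', hρ', map_mul, ← IsScalarTower.algebraMap_apply F B₀' G₀]
  let u : B₀ →ₐ[P] A ⊗[R] G :=
    { ((bc R E G A).toRingHom.comp ((Φ : A ⊗[F] B₀ →ₐ[A] A ⊗[R] E).toRingHom.comp
        (Algebra.TensorProduct.includeRight : B₀ →ₐ[F] A ⊗[F] B₀).toRingHom)) with
      commutes' := fun p => by
        show bc R E G A (Φ (1 ⊗ₜ algebraMap P B₀ p)) = algebraMap P (A ⊗[R] G) p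
        rw [hΦ, hP]
        simp [bc, ← IsScalarTower.algebraMap_apply P E G] }
  have hu' : ∀ b, u b = bc R E G A (Φ (1 ⊗ₜ b)) := fun _ => rfl
  let v : B₀' →ₐ[P'] A ⊗[R] G :=
    { ((bc R E' G A).toRingHom.comp ((Ψ : A ⊗[F] B₀' →ₐ[A] A ⊗[R] E').toRingHom.comp
        (Algebra.TensorProduct.includeRight : B₀' →ₐ[F] A ⊗[F] B₀').toRingHom)) with
      commutes' := fun p => by
        show bc R E' G A (Ψ (1 ⊗ₜ algebraMap P' B₀' p)) = algebraMap P' (A ⊗[R] G) p
        rw [hΨ, hP']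
        simp [bc, ← IsScalarTower.algebraMap_apply P' E' G] }
  have hv' : ∀ b, v b = bc R E' G A (Ψ (1 ⊗ₜ b)) := fun _ => rfl
  obtain ⟨U₀, hU1, hU2⟩ := exists_glued_lift x x' r hr u v
    (fun b => by rw [hrf, hu', hbc, hΦ' fE hfE]) (fun b => by rw [hrf, hv', hbc', hΨ' fE' hfE'])
  let U₁ : G₀ →ₐ[F] A ⊗[R] G :=
    { U₀.toRingHom with
      commutes' := fun c => by
        show U₀ (algebraMap F G₀ c) = algebraMap F (A ⊗[R] G) c
        rw [IsScalarTower.algebraMap_apply F Q G₀, U₀.commutes, hQ,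
          ← IsScalarTower.algebraMap_apply F Q G, IsScalarTower.algebraMap_apply F R G,
          Algebra.TensorProduct.algebraMap_apply, IsScalarTower.algebraMap_apply F R A,
          Algebra.algebraMap_eq_smul_one (A := G), Algebra.algebraMap_eq_smul_one (A := A),
          TensorProduct.smul_tmul] }
  have hU₁ : ∀ g, U₁ g = U₀ g := fun _ => rfl
  let U : A ⊗[F] G₀ →ₐ[A] A ⊗[R] G :=
    Algebra.TensorProduct.lift (Algebra.ofId A (A ⊗[R] G)) U₁ (fun _ _ => Commute.all _ _)
  have hU : ∀ a g, U (a ⊗ₜ g) = a • U₀ g := by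
    intro a g
    show Algebra.TensorProduct.lift (Algebra.ofId A (A ⊗[R] G)) U₁ (fun _ _ => Commute.all _ _)
      (a ⊗ₜ g) = a • U₀ g
    rw [Algebra.TensorProduct.lift_tmul, hU₁, Algebra.ofId_apply, Algebra.smul_def]
  refine ⟨U, ?_, ?_⟩
  · intro z
    induction z using TensorProduct.induction_on with
    | zero => simp
    | add a b ha hb => rw [map_add, map_add, map_add, map_add, ha, hb]
    | tmul a b =>
      have h1 : bc F B₀ G₀ A (a ⊗ₜ b) = a ⊗ₜ algebraMap B₀ G₀ b := by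
        simp [bc]
      have h2 : (a ⊗ₜ[F] b : A ⊗[F] B₀) = a • (1 ⊗ₜ b) := by
        rw [TensorProduct.smul_tmul', smul_eq_mul, mul_one]
      rw [h1, hU, hU1, hu', h2, map_smul, map_smul]
  · intro z
    induction z using TensorProduct.induction_on with
    | zero => simp
    | add a b ha hb => rw [map_add, map_add, map_add, map_add, ha, hb]
    | tmul a b =>
      have h1 : bc F B₀' G₀ A (a ⊗ₜ b) = a ⊗ₜ algebraMap B₀' G₀ b := by
        simp [bc]
      have h2 : (a ⊗ₜ[F] b : A ⊗[F] B₀') = a • (1 ⊗ₜ b) := by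
        rw [TensorProduct.smul_tmul', smul_eq_mul, mul_one]
      rw [h1, hU, hU2, hv', h2, map_smul, map_smul]
-- END L5

-- BEGIN L6
/-- (L6) `U` is injective (use (B2), (B3) for `B₀` and (B2) for `E`), so bounds can be transported in both directions: -/
theorem level_glue_iff (hB : Algebra.Etale P B₀) {n : ℕ}
    (e : Module.Basis (Fin n × ℕ) R E) (he : ∀ j i, algebraMap P E x * e (j, i) = e (j, i + 1))
    (D : ℕ) (z : A ⊗[F] B₀) (z' : A ⊗[F] B₀') :
    (1 ⊗ₜ[F] algebraMap B₀' G₀ (algebraMap P' B₀' x')) ^ D * bc F B₀ G₀ A z = bc F B₀' G₀ A z' ↔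
    (1 ⊗ₜ[R] algebraMap E' G (algebraMap P' E' x')) ^ D * bc R E G A (Φ z) =
      bc R E' G A (Ψ z') := by
  obtain ⟨U, hU, hU'⟩ := exists_level_glue ρ ρ' ρG hρ hρ' x x' hxx' δ hδ hδn Φ hΦ hΦ' Ψ hΨ hΨ' hB
  have hinjE : Function.Injective (bc R E G A) :=
    bc_injective (algebraMap P E x) e he A
  have hunit : IsUnit ((1 : A) ⊗ₜ[F] algebraMap B₀ G₀ (algebraMap P B₀ x)) := by
    have h1 : IsUnit (algebraMap B₀ G₀ (algebraMap P B₀ x)) :=
      IsLocalization.Away.algebraMap_isUnit (algebraMap P B₀ x)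
    exact h1.map (Algebra.TensorProduct.includeRight : G₀ →ₐ[F] A ⊗[F] G₀)
  have hinj : Function.Injective U := by
    rw [injective_iff_map_eq_zero]
    intro c hc
    obtain ⟨N, β, hβ⟩ := bc_denominator (R := F) (G := G₀) (algebraMap P B₀ x) A c
    have h1 : bc R E G A (Φ β) = 0 := by
      rw [← hU, ← hβ, map_mul, hc, mul_zero]
    have h2 : Φ β = 0 := hinjE (by rw [h1, map_zero])
    have h3 : β = 0 := by
      rw [← Φ.symm_apply_apply β, h2, map_zero]
    rw [h3, map_zero] at hβ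
    exact ((hunit.pow N).mul_right_eq_zero).1 hβ
  have hx' : U ((1 : A) ⊗ₜ[F] algebraMap B₀' G₀ (algebraMap P' B₀' x')) =
      (1 : A) ⊗ₜ[R] algebraMap E' G (algebraMap P' E' x') := by
    have h1 : (1 : A) ⊗ₜ[F] algebraMap B₀' G₀ (algebraMap P' B₀' x') =
        bc F B₀' G₀ A (1 ⊗ₜ[F] algebraMap P' B₀' x') := by
      simp [bc]
    rw [h1, hU', hΨ]
    simp [bc]
  constructor
  · intro h
    have h1 := congrArg U h
    rwa [map_mul, map_pow, hx', hU, hU'] at h1
  · intro h
    apply hinj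
    rwa [map_mul, map_pow, hx', hU, hU']
-- END L6

end three

section bounds

variable {F R P P' Q E E' G B₀ B₀' G₀ : Type u} [Field F] [CommRing R] [CommRing P] [CommRing P']
  [CommRing Q] [CommRing E] [CommRing E'] [CommRing G] [CommRing B₀] [CommRing B₀'] [CommRing G₀]
  [Algebra F R] [Algebra F P] [Algebra F P'] [Algebra F Q] [Algebra P Q] [Algebra P' Q]
  [IsScalarTower F P Q] [IsScalarTower F P' Q]
  [Algebra R E] [Algebra F E] [Algebra P E] [IsScalarTower F R E] [IsScalarTower F P E]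
  [Algebra R E'] [Algebra F E'] [Algebra P' E'] [IsScalarTower F R E'] [IsScalarTower F P' E']
  [Algebra R G] [Algebra F G] [Algebra P G] [Algebra P' G] [Algebra Q G] [IsScalarTower F R G]
  [IsScalarTower P Q G] [IsScalarTower P' Q G] [IsScalarTower F Q G]
  [Algebra E G] [Algebra E' G] [IsScalarTower R E G] [IsScalarTower R E' G] [IsScalarTower P E G]
  [IsScalarTower P' E' G]
  [Algebra F B₀] [Algebra P B₀] [IsScalarTower F P B₀]
  [Algebra F B₀'] [Algebra P' B₀'] [IsScalarTower F P' B₀']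
  [Algebra F G₀] [Algebra P G₀] [Algebra P' G₀] [Algebra Q G₀] [IsScalarTower P Q G₀]
  [IsScalarTower P' Q G₀] [IsScalarTower F Q G₀]
  [Algebra B₀ G₀] [Algebra B₀' G₀] [IsScalarTower F B₀ G₀] [IsScalarTower F B₀' G₀]
  [IsScalarTower P B₀ G₀] [IsScalarTower P' B₀' G₀]
  {ε : R →ₐ[F] F} (ρ : Red F R P E B₀ ε) (ρ' : Red F R P' E' B₀' ε) (ρG : Red F R Q G G₀ ε)
  (hρ : ∀ z, ρG.rd (algebraMap E G z) = algebraMap B₀ G₀ (ρ.rd z))
  (hρ' : ∀ z, ρG.rd (algebraMap E' G z) = algebraMap B₀' G₀ (ρ'.rd z))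
  (x : P) (x' : P') [IsLocalization.Away x Q] [IsLocalization.Away x' Q]
  (hxx' : algebraMap P Q x * algebraMap P' Q x' = 1)
  [IsLocalization.Away (algebraMap P E x) G] [IsLocalization.Away (algebraMap P' E' x') G]
  [IsLocalization.Away (algebraMap P B₀ x) G₀] [IsLocalization.Away (algebraMap P' B₀' x') G₀]
  (A : ℕ → Type u) [∀ m, CommRing (A m)] [∀ m, Algebra R (A m)] [∀ m, Algebra F (A m)]
  [∀ m, IsScalarTower F R (A m)]
  (δ : ∀ m, A m →ₐ[F] F) (hδ : ∀ m r, δ m (algebraMap R (A m) r) = ε r)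
  (hδn : ∀ m, IsNilpotent (RingHom.ker (δ m)))
  (Φ : ∀ m, A m ⊗[F] B₀ ≃ₐ[A m] A m ⊗[R] E)
  (hΦ : ∀ m p, Φ m (1 ⊗ₜ algebraMap P B₀ p) = 1 ⊗ₜ algebraMap P E p)
  (hΦ' : ∀ m (f : A m ⊗[R] E →+* B₀),
    (∀ a z, f (a ⊗ₜ z) = algebraMap F B₀ (δ m a) * ρ.rd z) → ∀ b, f (Φ m (1 ⊗ₜ b)) = b)
  (Ψ : ∀ m, A m ⊗[F] B₀' ≃ₐ[A m] A m ⊗[R] E')
  (hΨ : ∀ m p, Ψ m (1 ⊗ₜ algebraMap P' B₀' p) = 1 ⊗ₜ algebraMap P' E' p)
  (hΨ' : ∀ m (f : A m ⊗[R] E' →+* B₀'),
    (∀ a z, f (a ⊗ₜ z) = algebraMap F B₀' (δ m a) * ρ'.rd z) → ∀ b, f (Ψ m (1 ⊗ₜ b)) = b)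

include hρ hρ' hδ hδn hΦ hΦ' hΨ hΨ' hxx'

-- BEGIN L7
/-- (L7) Uniform bounds of the degree. For `z : B₀` there are `D` and `z' : B₀'` with `x' ^ D z = z'` in `G₀`
(localization); tensoring with `A m`, (L6) gives the hypothesis of (B10) for `β = Φ m (1 ⊗ z)`, `β' = Ψ m (1 ⊗ z')`, with a bound
independent of `m`. Conversely for `y : E` take `x' ^ D y = y'` in `G` and apply (L6) to `(Φ m).symm (1 ⊗ y)` and
`(Ψ m).symm (1 ⊗ y')`, then (B10) for `B₀, B₀', G₀` over the base ring `F`. -/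
theorem level_bounds (hB : Algebra.Etale P B₀) {n n' : ℕ}
    (e : Module.Basis (Fin n × ℕ) R E) (he : ∀ j i, algebraMap P E x * e (j, i) = e (j, i + 1))
    (e' : Module.Basis (Fin n' × ℕ) R E')
    (he' : ∀ j i, algebraMap P' E' x' * e' (j, i) = e' (j, i + 1))
    (b : Module.Basis (Fin n × ℕ) F B₀)
    (hb : ∀ j i, algebraMap P B₀ x * b (j, i) = b (j, i + 1))
    (b' : Module.Basis (Fin n' × ℕ) F B₀')
    (hb' : ∀ j i, algebraMap P' B₀' x' * b' (j, i) = b' (j, i + 1)) :
    (∀ z : B₀, ∃ d, ∀ m, Bdd e (A m) d (Φ m (1 ⊗ₜ z))) ∧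
    ∀ y : E, ∃ d, ∀ m, Bdd b (A m) d ((Φ m).symm (1 ⊗ₜ y)) := by
  have hxG : algebraMap E G (algebraMap P E x) * algebraMap E' G (algebraMap P' E' x') = 1 := by
    rw [← IsScalarTower.algebraMap_apply P E G, ← IsScalarTower.algebraMap_apply P' E' G,
      IsScalarTower.algebraMap_apply P Q G, IsScalarTower.algebraMap_apply P' Q G, ← map_mul, hxx',
      map_one]
  have hxG₀ : algebraMap B₀ G₀ (algebraMap P B₀ x) * algebraMap B₀' G₀ (algebraMap P' B₀' x') = 1 := by
    rw [← IsScalarTower.algebraMap_apply P B₀ G₀, ← IsScalarTower.algebraMap_apply P' B₀' G₀,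
      IsScalarTower.algebraMap_apply P Q G₀, IsScalarTower.algebraMap_apply P' Q G₀, ← map_mul, hxx',
      map_one]
  constructor
  · intro z
    obtain ⟨⟨z', s⟩, hs⟩ := IsLocalization.surj (Submonoid.powers (algebraMap P' B₀' x'))
      (algebraMap B₀ G₀ z)
    obtain ⟨D, hD⟩ := s.2
    have hz' : (algebraMap B₀' G₀ (algebraMap P' B₀' x')) ^ D * algebraMap B₀ G₀ z =
        algebraMap B₀' G₀ z' := by
      rw [← map_pow, mul_comm]
      have h1 : algebraMap P' B₀' x' ^ D = (s : B₀') := hD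
      rw [h1]
      exact hs
    obtain ⟨d, hd⟩ := exists_degree_bound (algebraMap P E x) (algebraMap P' E' x') hxG e he e' he' D
    refine ⟨d, fun m => hd (A m) (Φ m (1 ⊗ₜ z)) (Ψ m (1 ⊗ₜ z')) ?_⟩
    refine (level_glue_iff ρ ρ' ρG hρ hρ' x x' hxx' (δ m) (hδ m) (hδn m) (Φ m) (hΦ m) (hΦ' m)
      (Ψ m) (hΨ m) (hΨ' m) hB e he D (1 ⊗ₜ z) (1 ⊗ₜ z')).1 ?_
    have h2 : bc F B₀ G₀ (A m) (1 ⊗ₜ z) = 1 ⊗ₜ algebraMap B₀ G₀ z := by simp [bc]
    have h3 : bc F B₀' G₀ (A m) (1 ⊗ₜ z') = 1 ⊗ₜ algebraMap B₀' G₀ z' := by simp [bc]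
    rw [h2, h3, ← hz', Algebra.TensorProduct.tmul_pow, Algebra.TensorProduct.tmul_mul_tmul, one_pow,
      one_mul]
  · intro y
    obtain ⟨⟨y', s⟩, hs⟩ := IsLocalization.surj (Submonoid.powers (algebraMap P' E' x'))
      (algebraMap E G y)
    obtain ⟨D, hD⟩ := s.2
    have hy' : (algebraMap E' G (algebraMap P' E' x')) ^ D * algebraMap E G y =
        algebraMap E' G y' := by
      rw [← map_pow, mul_comm]
      have h1 : algebraMap P' E' x' ^ D = (s : E') := hD
      rw [h1]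
      exact hs
    obtain ⟨d, hd⟩ := exists_degree_bound (algebraMap P B₀ x) (algebraMap P' B₀' x') hxG₀ b hb b' hb'
      D
    refine ⟨d, fun m => hd (A m) ((Φ m).symm (1 ⊗ₜ y)) ((Ψ m).symm (1 ⊗ₜ y')) ?_⟩
    refine (level_glue_iff ρ ρ' ρG hρ hρ' x x' hxx' (δ m) (hδ m) (hδn m) (Φ m) (hΦ m) (hΦ' m)
      (Ψ m) (hΨ m) (hΨ' m) hB e he D ((Φ m).symm (1 ⊗ₜ y)) ((Ψ m).symm (1 ⊗ₜ y'))).2 ?_
    have h2 : bc R E G (A m) (1 ⊗ₜ y) = 1 ⊗ₜ algebraMap E G y := by simp [bc]
    have h3 : bc R E' G (A m) (1 ⊗ₜ y') = 1 ⊗ₜ algebraMap E' G y' := by simp [bc]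
    rw [AlgEquiv.apply_symm_apply, AlgEquiv.apply_symm_apply, h2, h3, ← hy',
      Algebra.TensorProduct.tmul_pow, Algebra.TensorProduct.tmul_mul_tmul, one_pow, one_mul]
-- END L7

end bounds

/-! ## The reduction as a quotient ring -/

/-- The reduction of `E` modulo the ideal `m` of `R`. -/
abbrev RedRing (R E : Type u) [CommRing R] [CommRing E] [Algebra R E] (m : Ideal R) : Type u :=
  E ⧸ m.map (algebraMap R E)

/-- The map of reductions. -/
def redMap (R E G : Type u) [CommRing R] [CommRing E] [CommRing G] [Algebra R E] [Algebra R G]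
    [Algebra E G] [IsScalarTower R E G] (m : Ideal R) : RedRing R E m →+* RedRing R G m :=
  Ideal.quotientMap _ (algebraMap E G) (by
    rw [← Ideal.map_le_iff_le_comap, Ideal.map_map, ← IsScalarTower.algebraMap_eq])

-- BEGIN L8
/-- (L8) -/
def redRing_red (F R P E : Type u) [Field F] [CommRing R] [CommRing P] [CommRing E] [Algebra F R]
    [Algebra F P] [Algebra R E] [Algebra F E] [Algebra P E] [IsScalarTower F R E]
    [IsScalarTower F P E] (ε : R →ₐ[F] F) : Red F R P E (RedRing R E (RingHom.ker ε)) ε where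
  rd := Ideal.Quotient.mk _
  surj := Ideal.Quotient.mk_surjective
  ker := Ideal.mk_ker
  hR := by
    intro r
    have h1 : algebraMap F (RedRing R E (RingHom.ker ε)) (ε r) =
        Ideal.Quotient.mk _ (algebraMap R E (algebraMap F R (ε r))) := by
      rw [← IsScalarTower.algebraMap_apply F R E]
      rfl
    rw [h1, Ideal.Quotient.eq, ← map_sub]
    refine Ideal.mem_map_of_mem _ ?_
    rw [RingHom.mem_ker, map_sub, AlgHom.commutes]
    exact sub_self _
  hP _ := rfl
-- END L8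

-- BEGIN L9
/-- (L9) The reduction of a localization is a localization. -/
theorem redMap_away (R E G : Type u) [CommRing R] [CommRing E] [CommRing G] [Algebra R E]
    [Algebra R G] [Algebra E G] [IsScalarTower R E G] (m : Ideal R) (x : E)
    [IsLocalization.Away x G] :
    letI := (redMap R E G m).toAlgebra
    IsLocalization.Away (Ideal.Quotient.mk _ x : RedRing R E m) (RedRing R G m) := by
  letI := (redMap R E G m).toAlgebra
  have h1 : IsLocalization ((Submonoid.powers x).map (Ideal.Quotient.mk (m.map (algebraMap R E))))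
      (RedRing R G m) := by
    refine IsLocalization.of_surjective (S := G) (Submonoid.powers x)
      (Ideal.Quotient.mk (m.map (algebraMap R E))) Ideal.Quotient.mk_surjective
      (Ideal.Quotient.mk (m.map (algebraMap R G))) Ideal.Quotient.mk_surjective ?_ ?_
    · ext a
      rfl
    · rw [Ideal.mk_ker, Ideal.mk_ker, Ideal.map_map, ← IsScalarTower.algebraMap_eq]
  rw [Submonoid.map_powers] at h1
  exact h1
-- END L9

/-! ## Constancy -/

-- BEGIN L10
private theorem L10_shift {R : Type u} [CommRing R] [IsDomain R] [IsNoetherianRing R] (m : Ideal R)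
    (hm : m ≠ ⊤) : Function.Injective (algebraMap R (∀ n : ℕ, R ⧸ m ^ (n + 1))) := by
  rw [injective_iff_map_eq_zero]
  intro x hx
  refine (injective_iff_map_eq_zero _).1 (krull_injective m hm) x ?_
  funext n
  have h2 := congrFun hx n
  have h3 : x ∈ m ^ (n + 1) := Ideal.Quotient.eq_zero_iff_mem.1 h2
  exact Ideal.Quotient.eq_zero_iff_mem.2 (Ideal.pow_le_pow_right (Nat.le_succ n) h3)

/-- the point of a quotient by a power of the kernel -/
private def L10_delta {F R : Type u} [Field F] [CommRing R] [Algebra F R] (ε : R →ₐ[F] F) (i : ℕ) :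
    (R ⧸ (RingHom.ker ε) ^ (i + 1)) →ₐ[F] F :=
  Ideal.Quotient.liftₐ _ ε (fun a ha => by
    have h : a ∈ (RingHom.ker ε) := by
      have h1 := Ideal.pow_le_self (I := RingHom.ker ε) (Nat.succ_ne_zero i) ha
      exact h1
    exact h)

private theorem L10_delta_apply {F R : Type u} [Field F] [CommRing R] [Algebra F R]
    (ε : R →ₐ[F] F) (i : ℕ) (r : R) :
    L10_delta ε i (algebraMap R (R ⧸ (RingHom.ker ε) ^ (i + 1)) r) = ε r := rfl

private theorem L10_delta_nilp {F R : Type u} [Field F] [CommRing R] [Algebra F R]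
    (ε : R →ₐ[F] F) (i : ℕ) : IsNilpotent (RingHom.ker (L10_delta ε i)) := by
  refine ⟨i + 1, ?_⟩
  have h1 : RingHom.ker (L10_delta ε i) ≤
      (RingHom.ker ε).map (Ideal.Quotient.mk ((RingHom.ker ε) ^ (i + 1))) := by
    intro a ha
    obtain ⟨r, rfl⟩ := Ideal.Quotient.mk_surjective a
    exact Ideal.mem_map_of_mem _ ha
  have h2 : (RingHom.ker (L10_delta ε i)) ^ (i + 1) ≤ ⊥ := by
    refine (Ideal.pow_right_mono h1 (i + 1)).trans ?_
    rw [← Ideal.map_pow, Ideal.map_quotient_self]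
  exact le_bot_iff.1 h2

/-- the assembly over `S = ∏ A_i`, followed by the descent to a finitely generated subalgebra and the
specialization to `K` -/
private theorem L10_final {F R K P E B₀ : Type u} [Field F] [CommRing R] [IsDomain R]
    [IsNoetherianRing R] [Algebra F R] [Field K] [IsAlgClosed K] [Algebra R K] [Algebra F K]
    [IsScalarTower F R K] (hRK : Function.Injective (algebraMap R K)) [CommRing P] [CommRing E]
    [CommRing B₀] [Algebra F B₀] [Algebra R E] [Algebra P E] [Algebra P B₀]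
    [Algebra.FiniteType R E] [Algebra.FiniteType F B₀] (m : Ideal R) (hm : m ≠ ⊤) {n : ℕ}
    (e : Module.Basis (Fin n × ℕ) R E) (b : Module.Basis (Fin n × ℕ) F B₀)
    (Φ : ∀ i, (R ⧸ m ^ (i + 1)) ⊗[F] B₀ ≃ₐ[R ⧸ m ^ (i + 1)] (R ⧸ m ^ (i + 1)) ⊗[R] E)
    (hΦ : ∀ i p, Φ i (1 ⊗ₜ algebraMap P B₀ p) = 1 ⊗ₜ algebraMap P E p)
    (h : ∀ z : B₀, ∃ d, ∀ i, Bdd e (R ⧸ m ^ (i + 1)) d (Φ i (1 ⊗ₜ z)))
    (h' : ∀ y : E, ∃ d, ∀ i, Bdd b (R ⧸ m ^ (i + 1)) d ((Φ i).symm (1 ⊗ₜ y))) :
    ∃ Φ : K ⊗[F] B₀ ≃ₐ[K] K ⊗[R] E, ∀ p : P,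
        Φ (1 ⊗ₜ algebraMap P B₀ p) = 1 ⊗ₜ algebraMap P E p := by
  obtain ⟨Ψ, hΨ⟩ := exists_equiv_pi e b (fun i => R ⧸ m ^ (i + 1)) Φ h h'
  have : Module.Free R E := Module.Free.of_basis e
  obtain ⟨T, hT, Ψ', hΨ'⟩ := exists_descent Ψ
  have hinj : Function.Injective (Algebra.TensorProduct.map (T.val) (AlgHom.id R E)) :=
    Module.Flat.rTensor_preserves_injective_linearMap (M := E) T.val.toLinearMap
      Subtype.val_injective
  have hP : ∀ p, Ψ' (1 ⊗ₜ algebraMap P B₀ p) = 1 ⊗ₜ algebraMap P E p := by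
    intro p
    apply hinj
    rw [hΨ', Algebra.TensorProduct.map_tmul, map_one]
    apply comp_injective e
    intro i
    rw [hΨ]
    exact hΦ i p
  have hRT : Function.Injective (algebraMap R T) := by
    refine Function.Injective.of_comp (f := (Subtype.val : T → _)) ?_
    exact L10_shift m hm
  have hTf : Algebra.FiniteType R T := (Subalgebra.fg_iff_finiteType T).1 hT
  obtain ⟨σ⟩ := exists_specialization (T := T) hRT hRK
  let _ : Algebra T K := σ.toRingHom.toAlgebra
  have hRTK : IsScalarTower R T K := IsScalarTower.of_algebraMap_eq fun r => (σ.commutes r).symm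
  have hFTK : IsScalarTower F T K := IsScalarTower.of_algebraMap_eq fun c => by
    rw [IsScalarTower.algebraMap_apply F R K, IsScalarTower.algebraMap_apply R T K,
      ← IsScalarTower.algebraMap_apply F R T]
  refine ⟨((Algebra.TensorProduct.cancelBaseChange F T K K B₀).symm.trans
    (Algebra.TensorProduct.congr AlgEquiv.refl Ψ')).trans
    (Algebra.TensorProduct.cancelBaseChange R T K K E), fun p => ?_⟩
  rw [AlgEquiv.trans_apply, AlgEquiv.trans_apply]
  have h1 : (Algebra.TensorProduct.cancelBaseChange F T K K B₀).symm (1 ⊗ₜ algebraMap P B₀ p) =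
      1 ⊗ₜ (1 ⊗ₜ algebraMap P B₀ p) := by
    rw [AlgEquiv.symm_apply_eq]
    simp
  rw [h1, Algebra.TensorProduct.congr_apply, Algebra.TensorProduct.map_tmul]
  have h2 : (Ψ' : (T ⊗[F] B₀) →ₐ[T] T ⊗[R] E) (1 ⊗ₜ algebraMap P B₀ p) = 1 ⊗ₜ algebraMap P E p :=
    hP p
  rw [h2]
  simp

/-- (L10) Constancy, for a covering defined over the finitely generated `F`-algebra `R` in `K`. Proof:
(T2) gives a point `ε` of `R`; `m = ker ε`, `B₀ = RedRing R E m` etc. (L8, L9, L2); `A_i = R ⧸ m ^ (i + 1)` (with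
`δ_i : A_i → R / m = F`), isomorphisms `Φ_i, Ψ_i` by (L4); they have bounded degree on each element, in both directions,
by (L7) (for every `z : B₀` there is `D` with `x' ^ D z ∈ B₀'` inside `G₀`, for every `y : E` there is `D` with
`x' ^ D y ∈ E'` inside `G`). (B13), (B14) and (T1) (injectivity of `R → ∏ A_i`; shift the index) give a finitely generated
`T ⊇ R` and an isomorphism `T ⊗ B₀ ≃ T ⊗ E`, `P`-linear (check in `S ⊗ E = (∏ A_i) ⊗ E`, (B11)). By (T3) there is an
`R`-homomorphism `T → K`; base change to `K`. -/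
theorem constant_of_model {F R K P P' Q E E' G : Type u} [Field F] [IsAlgClosed F] [CommRing R]
    [IsDomain R] [Algebra F R] [Algebra.FiniteType F R] [Field K] [IsAlgClosed K] [Algebra R K]
    [Algebra F K] [IsScalarTower F R K] (hRK : Function.Injective (algebraMap R K))
    [CommRing P] [CommRing P'] [CommRing Q] [CommRing E] [CommRing E'] [CommRing G]
    [Algebra F P] [Algebra F P'] [Algebra F Q] [Algebra P Q] [Algebra P' Q]
    [IsScalarTower F P Q] [IsScalarTower F P' Q] [Algebra.FiniteType F P]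
    [Algebra R E] [Algebra F E] [Algebra P E] [IsScalarTower F R E] [IsScalarTower F P E]
    [Algebra R E'] [Algebra F E'] [Algebra P' E'] [IsScalarTower F R E'] [IsScalarTower F P' E']
    [Algebra R G] [Algebra F G] [Algebra P G] [Algebra P' G] [Algebra Q G] [IsScalarTower F R G]
    [IsScalarTower P Q G] [IsScalarTower P' Q G] [IsScalarTower F Q G]
    [Algebra E G] [Algebra E' G] [IsScalarTower R E G] [IsScalarTower R E' G]
    [IsScalarTower P E G] [IsScalarTower P' E' G]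
    (hE : (lam F R P E).Etale) (hE' : (lam F R P' E').Etale)
    (x : P) (x' : P') [IsLocalization.Away x Q] [IsLocalization.Away x' Q]
    (hxx' : algebraMap P Q x * algebraMap P' Q x' = 1)
    [IsLocalization.Away (algebraMap P E x) G] [IsLocalization.Away (algebraMap P' E' x') G]
    {n n' : ℕ} (e : Module.Basis (Fin n × ℕ) R E)
    (he : ∀ j i, algebraMap P E x * e (j, i) = e (j, i + 1))
    (e' : Module.Basis (Fin n' × ℕ) R E')
    (he' : ∀ j i, algebraMap P' E' x' * e' (j, i) = e' (j, i + 1)) :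
    ∃ (B₀ : Type u) (_ : CommRing B₀) (_ : Algebra F B₀) (_ : Algebra P B₀)
      (_ : IsScalarTower F P B₀), Algebra.Etale P B₀ ∧ Module.Finite P B₀ ∧
      ∃ Φ : K ⊗[F] B₀ ≃ₐ[K] K ⊗[R] E, ∀ p : P,
        Φ (1 ⊗ₜ algebraMap P B₀ p) = 1 ⊗ₜ algebraMap P E p := by
  obtain ⟨ε⟩ := exists_point (F := F) (R := R)
  let m : Ideal R := RingHom.ker ε
  have hm : m ≠ ⊤ := RingHom.ker_ne_top ε
  let B₀ : Type u := RedRing R E m
  let B₀' : Type u := RedRing R E' m
  let G₀ : Type u := RedRing R G m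
  let _ : Algebra B₀ G₀ := (redMap R E G m).toAlgebra
  let _ : Algebra B₀' G₀ := (redMap R E' G m).toAlgebra
  let ρ := redRing_red F R P E ε
  let ρ' := redRing_red F R P' E' ε
  let ρG := redRing_red F R Q G ε
  have a1 : IsScalarTower P E G := inferInstance
  have t1 : IsScalarTower P B₀ G₀ := IsScalarTower.of_algebraMap_eq fun p => by
    change (Ideal.Quotient.mk _ (algebraMap P G p) : G₀) = Ideal.Quotient.mk _
      (algebraMap E G (algebraMap P E p))
    rw [← IsScalarTower.algebraMap_apply P E G]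
  have t2 : IsScalarTower P' B₀' G₀ := IsScalarTower.of_algebraMap_eq fun p => by
    change (Ideal.Quotient.mk _ (algebraMap P' G p) : G₀) = Ideal.Quotient.mk _
      (algebraMap E' G (algebraMap P' E' p))
    rw [← IsScalarTower.algebraMap_apply P' E' G]
  have t3 : IsScalarTower F B₀ G₀ := IsScalarTower.of_algebraMap_eq fun c => by
    change (Ideal.Quotient.mk _ (algebraMap F G c) : G₀) = Ideal.Quotient.mk _
      (algebraMap E G (algebraMap F E c))
    rw [IsScalarTower.algebraMap_apply F R E, ← IsScalarTower.algebraMap_apply R E G,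
      ← IsScalarTower.algebraMap_apply F R G]
  have t4 : IsScalarTower F B₀' G₀ := IsScalarTower.of_algebraMap_eq fun c => by
    change (Ideal.Quotient.mk _ (algebraMap F G c) : G₀) = Ideal.Quotient.mk _
      (algebraMap E' G (algebraMap F E' c))
    rw [IsScalarTower.algebraMap_apply F R E', ← IsScalarTower.algebraMap_apply R E' G,
      ← IsScalarTower.algebraMap_apply F R G]
  have l1 : IsLocalization.Away (algebraMap P B₀ x) G₀ :=
    redMap_away R E G m (algebraMap P E x)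
  have l2 : IsLocalization.Away (algebraMap P' B₀' x') G₀ :=
    redMap_away R E' G m (algebraMap P' E' x')
  have hB : Algebra.Etale P B₀ := ρ.etale hE
  obtain ⟨b, hbe, hb⟩ := ρ.exists_basis x e he
  obtain ⟨b', hbe', hb'⟩ := ρ'.exists_basis x' e' he'
  have hlev := fun i => ρ.exists_level_equiv hE (L10_delta ε i) (L10_delta_apply ε i)
    (L10_delta_nilp ε i)
  have hlev' := fun i => ρ'.exists_level_equiv hE' (L10_delta ε i) (L10_delta_apply ε i)
    (L10_delta_nilp ε i)
  choose Φ hΦ hΦ' using hlev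
  choose Ψ hΨ hΨ' using hlev'
  obtain ⟨k1, k2⟩ := level_bounds ρ ρ' ρG (fun _ => rfl) (fun _ => rfl) x x' hxx'
    (fun i => R ⧸ m ^ (i + 1)) (L10_delta ε) (L10_delta_apply ε) (L10_delta_nilp ε) Φ hΦ hΦ'
    Ψ hΨ hΨ' hB e he e' he' b hb b' hb'
  have hfin : Module.Finite P B₀ := by
    classical
    refine ⟨⟨Finset.univ.image fun j : Fin n => b (j, 0), ?_⟩⟩
    rw [eq_top_iff]
    intro y _
    rw [← b.linearCombination_repr y, Finsupp.linearCombination_apply, Finsupp.sum]
    refine Submodule.sum_mem _ fun k _ => ?_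
    have h1 : ∀ (j : Fin n) (i : ℕ), b (j, i) ∈ Submodule.span P
        (↑(Finset.univ.image fun j : Fin n => b (j, 0)) : Set B₀) := by
      intro j i
      induction i with
      | zero => exact Submodule.subset_span (by simp)
      | succ i ih =>
        rw [← hb, ← Algebra.smul_def]
        exact Submodule.smul_mem _ _ ih
    have h2 : (b.repr y k) • b k = (algebraMap F P (b.repr y k)) • b k := by
      rw [algebraMap_smul]
    rw [h2]
    exact Submodule.smul_mem _ _ (h1 k.1 k.2)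
  have hft : Algebra.FiniteType F B₀ := by
    have : Algebra.FiniteType P B₀ := inferInstance
    exact Algebra.FiniteType.trans (S := P) inferInstance this
  have hftE : Algebra.FiniteType R E := by
    let _ : Algebra (R ⊗[F] P) E := (lam F R P E).toAlgebra
    have h1 : Algebra.Etale (R ⊗[F] P) E := hE
    have h2 : Algebra.FiniteType (R ⊗[F] P) E := inferInstance
    have h3 : IsScalarTower R (R ⊗[F] P) E := IsScalarTower.of_algebraMap_eq fun r => by
      change algebraMap R E r = lam F R P E (r ⊗ₜ 1)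
      simp [lam]
    exact Algebra.FiniteType.trans (S := R ⊗[F] P) inferInstance h2
  have hN : IsNoetherianRing R := Algebra.FiniteType.isNoetherianRing F R
  exact ⟨B₀, inferInstance, inferInstance, inferInstance, inferInstance, hB, hfin,
    L10_final hRK m hm e b Φ hΦ k1 k2⟩
-- END L10

end Pool.Agent.Lib.MP_211349_ag
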