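import Pool.Agent.Lib.MP_211349_ag.T.Base

/-!
# Spreading out: models of étale algebras over finitely generated subalgebras of `K`
-/

open TensorProduct

universe u

noncomputable section

namespace Pool.Agent.Lib.MP_211349_ag

section defs

variable (F K P B : Type u) [Field F] [Field K] [Algebra F K] [CommRing P] [Algebra F P]
  [CommRing B] [Algebra K B] [Algebra P B] [Algebra F B] [IsScalarTower F K B]
  [IsScalarTower F P B]

/-- The `R`-subalgebra of `B` generated by `P` and the set `S`. -/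
def BR (R : Subalgebra F K) (S : Set B) : Subalgebra R B :=
  Algebra.adjoin R (Set.range (algebraMap P B) ∪ S)

instance BR.algebraP (R : Subalgebra F K) (S : Set B) : Algebra P (BR F K P B R S) :=
  ((algebraMap P B).codRestrict (BR F K P B R S) fun p =>
    Algebra.subset_adjoin (Set.mem_union_left _ ⟨p, rfl⟩)).toAlgebra

instance BR.tower (R : Subalgebra F K) (S : Set B) : IsScalarTower F P (BR F K P B R S) :=
  IsScalarTower.of_algebraMap_eq fun a => Subtype.ext (by
    change algebraMap F B a = algebraMap P B (algebraMap F P a)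
    exact IsScalarTower.algebraMap_apply F P B a)

theorem BR.coe_algebraMap (R : Subalgebra F K) (S : Set B) (p : P) :
    ((algebraMap P (BR F K P B R S) p : BR F K P B R S) : B) = algebraMap P B p := rfl

-- BEGIN P1
/-- (P1) -/
theorem BR.mono {R R' : Subalgebra F K} (h : R ≤ R') (S : Set B) :
    (BR F K P B R S : Set B) ⊆ BR F K P B R' S := by
  intro b hb
  have hb' : b ∈ Algebra.adjoin R (Set.range (algebraMap P B) ∪ S) := hb
  show b ∈ Algebra.adjoin R' (Set.range (algebraMap P B) ∪ S)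
  induction hb' using Algebra.adjoin_induction with
  | mem x hx => exact Algebra.subset_adjoin hx
  | algebraMap r =>
    have : algebraMap R B r = algebraMap R' B ⟨r, h r.2⟩ := rfl
    rw [this]
    exact Subalgebra.algebraMap_mem _ _
  | add x y _ _ hx hy =>
    exact Subalgebra.add_mem _ (hx (by assumption)) (hy (by assumption))
  | mul x y _ _ hx hy =>
    exact Subalgebra.mul_mem _ (hx (by assumption)) (hy (by assumption))
-- END P1

-- BEGIN P2
/-- (P2) An element of the `K`-span of `BR` for `R` lies in `BR` for a bigger `R`. -/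
theorem BR.exists_mem (R : Subalgebra F K) (S : Set B)
    (hS : Submodule.span K (BR F K P B R S : Set B) = ⊤) (b : B) :
    ∃ R₁ : Subalgebra F K, R₁.FG ∧ ∀ R' : Subalgebra F K, R ≤ R' → R₁ ≤ R' →
      b ∈ BR F K P B R' S := by
  have hb : b ∈ Submodule.span K (BR F K P B R S : Set B) := by
    rw [hS]
    exact Submodule.mem_top
  induction hb using Submodule.span_induction with
  | mem x hx =>
    exact ⟨⊥, Subalgebra.fg_bot, fun R' h1 _ => BR.mono F K P B h1 S hx⟩
  | zero => exact ⟨⊥, Subalgebra.fg_bot, fun R' _ _ => zero_mem _⟩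
  | add x y _ _ ihx ihy =>
    obtain ⟨R₁, h1, h2⟩ := ihx
    obtain ⟨R₂, h3, h4⟩ := ihy
    exact ⟨R₁ ⊔ R₂, h1.sup h3, fun R' h5 h6 => add_mem (h2 R' h5 (le_sup_left.trans h6))
      (h4 R' h5 (le_sup_right.trans h6))⟩
  | smul k x _ ih =>
    obtain ⟨R₁, h1, h2⟩ := ih
    refine ⟨R₁ ⊔ Algebra.adjoin F {k}, h1.sup (Subalgebra.fg_adjoin_finset {k} |> fun h => by
      simpa using h), fun R' h5 h6 => ?_⟩
    have h7 : k ∈ R' := h6 (le_sup_right (a := R₁) (Algebra.subset_adjoin (Set.mem_singleton k)))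
    have h8 := h2 R' h5 (le_sup_left.trans h6)
    exact Subalgebra.smul_mem (BR F K P B R' S) h8 (⟨k, h7⟩ : R')
-- END P2

end defs

variable {F K P B : Type u} [Field F] [Field K] [Algebra F K] [CommRing P] [Algebra F P]
  [CommRing B] [Algebra K B] [Algebra P B] [Algebra F B] [IsScalarTower F K B]
  [IsScalarTower F P B]

-- BEGIN P3
private theorem P3_core {R K A₁ A A₀ B₀ B : Type u} [CommRing R] [CommRing K] [CommRing A₁]
    [CommRing A] [CommRing A₀] [CommRing B₀] [CommRing B] [Algebra R K] [Algebra R A₁]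
    [Algebra R A] [Algebra K A] [Algebra A₁ A] [IsScalarTower R K A] [IsScalarTower R A₁ A]
    [Algebra A₀ A₁] [Algebra A₀ A] [IsScalarTower A₀ A₁ A] [Algebra A₀ B₀] [Algebra A B]
    [Algebra B₀ B] [Algebra A₀ B] [IsScalarTower A₀ A B] [IsScalarTower A₀ B₀ B]
    [Algebra K B] [IsScalarTower K A B] [Algebra A₁ B] [IsScalarTower A₁ A B] [Algebra R B]
    [IsScalarTower R K B] [IsScalarTower R A₁ B] [IsScalarTower A₀ A₁ B]
    [Algebra.IsPushout R A₁ K A] [Algebra.IsPushout A₀ A B₀ B] [Algebra.Etale A₀ B₀]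
    (hinj : Function.Injective (algebraMap A₁ A)) (C : Subalgebra R B)
    (hC : ∀ b, b ∈ C ↔ b ∈ (Algebra.TensorProduct.productMap (IsScalarTower.toAlgHom A₀ A₁ B)
      (IsScalarTower.toAlgHom A₀ B₀ B)).range) :
    (∃ g : A₁ →+* C, (∀ a, (g a : B) = algebraMap A₁ B a) ∧ g.Etale) ∧
      Function.Bijective (Algebra.TensorProduct.productMap (IsScalarTower.toAlgHom R K B)
        C.val) := by
  have t0 : IsScalarTower R A B := IsScalarTower.of_algebraMap_eq fun r => by
    rw [IsScalarTower.algebraMap_apply R K A, ← IsScalarTower.algebraMap_apply K A B,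
      ← IsScalarTower.algebraMap_apply R K B]
  let φ : A₁ ⊗[A₀] B₀ →ₐ[A₀] B := Algebra.TensorProduct.productMap
    (IsScalarTower.toAlgHom A₀ A₁ B) (IsScalarTower.toAlgHom A₀ B₀ B)
  let algB₀E : Algebra B₀ (A₁ ⊗[A₀] B₀) := Algebra.TensorProduct.rightAlgebra
  let algEB : Algebra (A₁ ⊗[A₀] B₀) B := φ.toRingHom.toAlgebra
  have t1 : IsScalarTower R A₁ (A₁ ⊗[A₀] B₀) := inferInstance
  have t2 : IsScalarTower A₁ (A₁ ⊗[A₀] B₀) B := IsScalarTower.of_algebraMap_eq fun a => by
    change algebraMap A₁ B a = φ (a ⊗ₜ 1)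
    simp [φ]
  have t3 : IsScalarTower B₀ (A₁ ⊗[A₀] B₀) B := IsScalarTower.of_algebraMap_eq fun a => by
    change algebraMap B₀ B a = φ (1 ⊗ₜ a)
    simp [φ]
  have t4 : IsScalarTower A₀ (A₁ ⊗[A₀] B₀) B := IsScalarTower.of_algebraMap_eq fun a => by
    exact (φ.commutes a).symm
  have t5 : IsScalarTower R (A₁ ⊗[A₀] B₀) B := IsScalarTower.of_algebraMap_eq fun a => by
    change algebraMap R B a = φ ((algebraMap R A₁ a) ⊗ₜ 1)
    simp [φ, ← IsScalarTower.algebraMap_apply R A₁ B]
  have p0 : Algebra.IsPushout A₀ A₁ B₀ (A₁ ⊗[A₀] B₀) := TensorProduct.isPushout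
  have p1 : Algebra.IsPushout A₁ A (A₁ ⊗[A₀] B₀) B :=
    (Algebra.IsPushout.comp_iff A₀ A₁ B₀ (S' := A₁ ⊗[A₀] B₀) (T := A) (T' := B)).1 inferInstance
  have p2 : Algebra.IsPushout A₁ (A₁ ⊗[A₀] B₀) A B := p1.symm
  have p3 : Algebra.IsPushout R (A₁ ⊗[A₀] B₀) K B :=
    (Algebra.IsPushout.comp_iff R A₁ K (S' := A) (T := A₁ ⊗[A₀] B₀) (T' := B)).2 p2
  have p4 : Algebra.IsPushout R K (A₁ ⊗[A₀] B₀) B := p3.symm
  have hEt : Algebra.Etale A₁ (A₁ ⊗[A₀] B₀) := inferInstance
  have hfl : Module.Flat A₁ (A₁ ⊗[A₀] B₀) := Algebra.Smooth.flat _ _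
  -- injectivity
  have hφ : Function.Injective φ := by
    have h1 := Algebra.TensorProduct.includeRight_injective (B := A₁ ⊗[A₀] B₀) hinj
    have h2 : ∀ x : A₁ ⊗[A₀] B₀, φ x = (Algebra.IsPushout.equiv A₁ A (A₁ ⊗[A₀] B₀) B)
        (Algebra.TensorProduct.includeRight x) := by
      intro x
      rw [Algebra.TensorProduct.includeRight_apply, Algebra.IsPushout.equiv_tmul, map_one,
        one_mul]
      rfl
    intro x y hxy
    rw [h2, h2] at hxy
    exact h1 ((Algebra.IsPushout.equiv A₁ A (A₁ ⊗[A₀] B₀) B).injective hxy)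
  -- the isomorphism with `C`
  let ψ : A₁ ⊗[A₀] B₀ →ₐ[R] B := IsScalarTower.toAlgHom R (A₁ ⊗[A₀] B₀) B
  have hψ : ∀ x, ψ x = φ x := fun _ => rfl
  let ψC : A₁ ⊗[A₀] B₀ →ₐ[R] C := ψ.codRestrict C fun x => (hC _).2 ⟨x, rfl⟩
  have hψC : Function.Bijective ψC := by
    constructor
    · intro x y hxy
      exact hφ (congrArg Subtype.val hxy)
    · rintro ⟨b, hb⟩
      obtain ⟨x, hx⟩ := (hC b).1 hb
      exact ⟨x, Subtype.ext hx⟩
  let eC : A₁ ⊗[A₀] B₀ ≃ₐ[R] C := AlgEquiv.ofBijective ψC hψC
  refine ⟨⟨(eC.toRingEquiv.toRingHom).comp (algebraMap A₁ (A₁ ⊗[A₀] B₀)), ?_, ?_⟩, ?_⟩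
  · intro a
    exact (IsScalarTower.algebraMap_apply A₁ (A₁ ⊗[A₀] B₀) B a).symm
  · exact RingHom.Etale.respectsIso.1 _ _ (RingHom.etale_algebraMap.2 hEt)
  · let e1 : K ⊗[R] C ≃ₐ[R] K ⊗[R] (A₁ ⊗[A₀] B₀) :=
      Algebra.TensorProduct.congr AlgEquiv.refl eC.symm
    let e2 := Algebra.IsPushout.equiv R K (A₁ ⊗[A₀] B₀) B
    have h1 : ∀ z : K ⊗[R] C, Algebra.TensorProduct.productMap (IsScalarTower.toAlgHom R K B)
        C.val z = e2 (e1 z) := by
      intro z
      induction z using TensorProduct.induction_on with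
      | zero => simp
      | add x y hx hy => rw [map_add, map_add, map_add, hx, hy]
      | tmul k c =>
        obtain ⟨x, rfl⟩ := eC.surjective c
        have h2 : e1 (k ⊗ₜ eC x) = k ⊗ₜ x := by simp [e1]
        rw [h2, Algebra.TensorProduct.productMap_apply_tmul, Algebra.IsPushout.equiv_tmul]
        rfl
    have h2 : (Algebra.TensorProduct.productMap (IsScalarTower.toAlgHom R K B) C.val :
        K ⊗[R] C → B) = e2 ∘ e1 := funext h1
    rw [h2]
    exact e2.bijective.comp e1.bijective

/-- an element of the tensor product comes from a finitely generated subalgebra -/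
private theorem P3_mem (a : K ⊗[F] P) : ∃ R₁ : Subalgebra F K, R₁.FG ∧
    ∀ R : Subalgebra F K, R₁ ≤ R →
      a ∈ (Algebra.TensorProduct.map R.val (AlgHom.id F P)).range := by
  induction a using TensorProduct.induction_on with
  | zero => exact ⟨⊥, Subalgebra.fg_bot, fun R _ => zero_mem _⟩
  | tmul k p =>
    refine ⟨Algebra.adjoin F {k}, Subalgebra.fg_adjoin_finset {k} |> fun h => by simpa using h,
      fun R hR => ?_⟩
    have h7 : k ∈ R := hR (Algebra.subset_adjoin (Set.mem_singleton k))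
    exact ⟨(⟨k, h7⟩ : R) ⊗ₜ p, by simp⟩
  | add x y hx hy =>
    obtain ⟨R₁, h1, h2⟩ := hx
    obtain ⟨R₂, h3, h4⟩ := hy
    exact ⟨R₁ ⊔ R₂, h1.sup h3, fun R hR => add_mem (h2 R (le_sup_left.trans hR))
      (h4 R (le_sup_right.trans hR))⟩

/-- the same for a finitely generated subalgebra -/
private theorem P3_le (A₀ : Subalgebra F (K ⊗[F] P)) (hA : A₀.FG) :
    ∃ R₁ : Subalgebra F K, R₁.FG ∧ ∀ R : Subalgebra F K, R₁ ≤ R →
      A₀ ≤ (Algebra.TensorProduct.map R.val (AlgHom.id F P)).range := by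
  classical
  obtain ⟨gens, rfl⟩ := hA
  have h := fun a : gens => P3_mem (F := F) (K := K) (P := P) (a : K ⊗[F] P)
  choose R₁ h1 h2 using h
  refine ⟨Finset.univ.sup R₁, ?_, fun R hR => ?_⟩
  · exact Finset.sup_induction (p := fun A : Subalgebra F K => A.FG) Subalgebra.fg_bot
      (fun a ha b hb => ha.sup hb) fun i _ => h1 i
  · refine Algebra.adjoin_le fun a ha => ?_
    exact h2 ⟨a, ha⟩ R ((Finset.le_sup (Finset.mem_univ _)).trans hR)

/-- (P3) Spreading out of étale algebras. `Algebra.Etale.exists_subalgebra_fg F (K ⊗ P) B` gives a finitely generated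
`A₀ ⊆ K ⊗ P` and an étale `A₀`-algebra `B₁` with `B = (K ⊗ P) ⊗ B₁`. The generators of `A₀` lie in `R₁ ⊗ P` for a
finitely generated `R₁ ⊆ K`. Let `S` be the image of a finite set of generators of the `A₀`-algebra `B₁`. For `R ≥ R₁` the
algebra `E = (R ⊗ P) ⊗_{A₀} B₁` is étale over `R ⊗ P`, flat over `R` (`P` is free over the field `F`), and `K ⊗_R E = B`; so
`E → B` is injective, with image `BR`. -/
theorem exists_spread_etale (hB : (lam F K P B).Etale) :
    ∃ (R₁ : Subalgebra F K) (S : Set B), R₁.FG ∧ S.Finite ∧ ∀ R : Subalgebra F K, R₁ ≤ R →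
      (lam F R P (BR F K P B R S)).Etale ∧
      Function.Bijective (Algebra.TensorProduct.productMap (IsScalarTower.toAlgHom R K B)
        (BR F K P B R S).val) := by
  classical
  let algAB : Algebra (K ⊗[F] P) B := (lam F K P B).toAlgebra
  have hEtAB : Algebra.Etale (K ⊗[F] P) B := hB
  have hlam : ∀ (k : K) (p : P), algebraMap (K ⊗[F] P) B (k ⊗ₜ p) =
      algebraMap K B k * algebraMap P B p := fun k p =>
    Algebra.TensorProduct.productMap_apply_tmul _ _ _ _
  have tF : IsScalarTower F (K ⊗[F] P) B := IsScalarTower.of_algebraMap_eq fun a => by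
    rw [Algebra.TensorProduct.algebraMap_apply, hlam, map_one, mul_one,
      ← IsScalarTower.algebraMap_apply F K B]
  have tK : IsScalarTower K (K ⊗[F] P) B := IsScalarTower.of_algebraMap_eq fun a => by
    rw [Algebra.TensorProduct.algebraMap_apply, hlam, map_one, mul_one]
    rfl
  obtain ⟨A₀, B₀, _, _, hA₀, hEt, ⟨e⟩⟩ := Algebra.Etale.exists_subalgebra_fg F (K ⊗[F] P) B
  let β : B₀ →+* B := (e.symm.toAlgHom.toRingHom).comp
    (Algebra.TensorProduct.includeRight (R := A₀) (A := K ⊗[F] P) (B := B₀)).toRingHom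
  let algB₀B : Algebra B₀ B := β.toAlgebra
  have hβ : ∀ y : B₀, algebraMap B₀ B y = e.symm (1 ⊗ₜ y) := fun _ => rfl
  have tA₀B₀ : IsScalarTower A₀ B₀ B := IsScalarTower.of_algebraMap_eq fun a => by
    rw [hβ]
    have h1 : (1 : K ⊗[F] P) ⊗ₜ[A₀] (algebraMap A₀ B₀ a) =
        algebraMap (K ⊗[F] P) ((K ⊗[F] P) ⊗[A₀] B₀) (a : K ⊗[F] P) := by
      rw [Algebra.TensorProduct.algebraMap_apply, Algebra.algebraMap_eq_smul_one,
        ← TensorProduct.smul_tmul]
      simp [Algebra.smul_def]
    rw [h1, AlgEquiv.commutes]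
    rfl
  have pA₀ : Algebra.IsPushout A₀ (K ⊗[F] P) B₀ B := by
    let algR : Algebra B₀ ((K ⊗[F] P) ⊗[A₀] B₀) := Algebra.TensorProduct.rightAlgebra
    have tR : IsScalarTower A₀ B₀ ((K ⊗[F] P) ⊗[A₀] B₀) :=
      IsScalarTower.of_algebraMap_eq fun r =>
        ((Algebra.TensorProduct.includeRight (R := A₀) (A := K ⊗[F] P) (B := B₀)).commutes r).symm
    have hR : Algebra.IsPushout A₀ (K ⊗[F] P) B₀ ((K ⊗[F] P) ⊗[A₀] B₀) :=
      TensorProduct.isPushout
    exact Algebra.IsPushout.of_equiv e.symm (RingHom.ext fun y => rfl)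
  obtain ⟨gens, hgens⟩ := (inferInstance : Algebra.FiniteType A₀ B₀).out
  obtain ⟨R₁, hR₁, hR⟩ := P3_le A₀ hA₀
  refine ⟨R₁, algebraMap B₀ B '' (gens : Set B₀), hR₁, gens.finite_toSet.image _,
    fun R hRR => ?_⟩
  have hle := hR R hRR
  let ι : R ⊗[F] P →ₐ[F] K ⊗[F] P := Algebra.TensorProduct.map R.val (AlgHom.id F P)
  have hι : Function.Injective ι := by
    have h1 := Module.Flat.rTensor_preserves_injective_linearMap (M := P) R.val.toLinearMap
      Subtype.val_injective
    exact h1
  let algA₁A : Algebra (R ⊗[F] P) (K ⊗[F] P) := ι.toRingHom.toAlgebra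
  have hA₁A : ∀ x, algebraMap (R ⊗[F] P) (K ⊗[F] P) x = ι x := fun _ => rfl
  let f : A₀ →+* R ⊗[F] P :=
    ((AlgEquiv.ofInjective ι hι).symm.toAlgHom.toRingHom).comp (Subalgebra.inclusion hle).toRingHom
  have hf : ∀ a : A₀, ι (f a) = (a : K ⊗[F] P) := fun a =>
    congrArg Subtype.val ((AlgEquiv.ofInjective ι hι).apply_symm_apply (Subalgebra.inclusion hle a))
  let algA₀A₁ : Algebra A₀ (R ⊗[F] P) := f.toAlgebra
  have t1 : IsScalarTower A₀ (R ⊗[F] P) (K ⊗[F] P) := IsScalarTower.of_algebraMap_eq fun a =>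
    (hf a).symm
  let algA₁B : Algebra (R ⊗[F] P) B :=
    ((algebraMap (K ⊗[F] P) B).comp (algebraMap (R ⊗[F] P) (K ⊗[F] P))).toAlgebra
  have hA₁B : ∀ (r : R) (p : P), algebraMap (R ⊗[F] P) B (r ⊗ₜ p) =
      algebraMap K B (r : K) * algebraMap P B p := fun r p => hlam _ _
  have t2 : IsScalarTower (R ⊗[F] P) (K ⊗[F] P) B := IsScalarTower.of_algebraMap_eq fun _ => rfl
  have t3 : IsScalarTower A₀ (R ⊗[F] P) B := IsScalarTower.of_algebraMap_eq fun a => by
    rw [IsScalarTower.algebraMap_apply (R ⊗[F] P) (K ⊗[F] P) B,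
      ← IsScalarTower.algebraMap_apply A₀ (R ⊗[F] P) (K ⊗[F] P)]
    rfl
  have t4 : IsScalarTower R (R ⊗[F] P) (K ⊗[F] P) := by
    refine @IsScalarTower.of_algebraMap_eq R (R ⊗[F] P) (K ⊗[F] P) _ _ _ _ _ _ fun r => ?_
    rw [hA₁A]
    change algebraMap R (K ⊗[F] P) r = ι (r ⊗ₜ 1)
    rw [Algebra.TensorProduct.map_tmul]
    rfl
  have t5 : IsScalarTower R (R ⊗[F] P) B := by
    refine @IsScalarTower.of_algebraMap_eq R (R ⊗[F] P) B _ _ _ _ _ _ fun r => ?_
    change algebraMap R B r = algebraMap (R ⊗[F] P) B (r ⊗ₜ 1)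
    rw [hA₁B, map_one, mul_one]
    rfl
  have p1 : Algebra.IsPushout R K (R ⊗[F] P) (K ⊗[F] P) :=
    Algebra.IsPushout.tensorProduct_tensorProduct F P R K (RingHom.ext fun p => by
      change ι (1 ⊗ₜ p) = 1 ⊗ₜ p
      simp [ι])
  have p2 : Algebra.IsPushout R (R ⊗[F] P) K (K ⊗[F] P) := p1.symm
  have hA₁mem : ∀ x : R ⊗[F] P, algebraMap (R ⊗[F] P) B x ∈
      BR F K P B R (algebraMap B₀ B '' (gens : Set B₀)) := by
    intro x
    induction x using TensorProduct.induction_on with
    | zero => rw [map_zero]; exact zero_mem _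
    | add x y hx hy => rw [map_add]; exact add_mem hx hy
    | tmul r p =>
      rw [hA₁B]
      exact mul_mem (Subalgebra.algebraMap_mem _ r)
        (Algebra.subset_adjoin (Set.mem_union_left _ ⟨p, rfl⟩))
  have hB₀mem : ∀ y : B₀, algebraMap B₀ B y ∈
      BR F K P B R (algebraMap B₀ B '' (gens : Set B₀)) := by
    intro y
    have hy : y ∈ Algebra.adjoin A₀ (gens : Set B₀) := by
      rw [hgens]
      exact Algebra.mem_top
    induction hy using Algebra.adjoin_induction with
    | mem g hg => exact Algebra.subset_adjoin (Set.mem_union_right _ ⟨g, hg, rfl⟩)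
    | algebraMap a =>
      rw [← IsScalarTower.algebraMap_apply A₀ B₀ B,
        IsScalarTower.algebraMap_apply A₀ (R ⊗[F] P) B]
      exact hA₁mem _
    | add x y _ _ hx hy => rw [map_add]; exact add_mem hx hy
    | mul x y _ _ hx hy => rw [map_mul]; exact mul_mem hx hy
  have hC : ∀ b, b ∈ BR F K P B R (algebraMap B₀ B '' (gens : Set B₀)) ↔
      b ∈ (Algebra.TensorProduct.productMap (IsScalarTower.toAlgHom A₀ (R ⊗[F] P) B)
        (IsScalarTower.toAlgHom A₀ B₀ B)).range := by
    intro b
    constructor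
    · intro hb
      induction hb using Algebra.adjoin_induction with
      | mem g hg =>
        rcases hg with ⟨p, rfl⟩ | ⟨y, _, rfl⟩
        · refine ⟨((1 : R) ⊗ₜ[F] p) ⊗ₜ[A₀] (1 : B₀), ?_⟩
          change (Algebra.TensorProduct.productMap (IsScalarTower.toAlgHom A₀ (R ⊗[F] P) B)
            (IsScalarTower.toAlgHom A₀ B₀ B)) _ = _
          rw [Algebra.TensorProduct.productMap_apply_tmul, map_one, mul_one]
          change algebraMap (R ⊗[F] P) B (1 ⊗ₜ p) = _
          rw [hA₁B, OneMemClass.coe_one, map_one, one_mul]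
        · refine ⟨(1 : R ⊗[F] P) ⊗ₜ[A₀] y, ?_⟩
          change (Algebra.TensorProduct.productMap (IsScalarTower.toAlgHom A₀ (R ⊗[F] P) B)
            (IsScalarTower.toAlgHom A₀ B₀ B)) _ = _
          rw [Algebra.TensorProduct.productMap_apply_tmul, map_one, one_mul]
          rfl
      | algebraMap r =>
        refine ⟨(r ⊗ₜ[F] (1 : P)) ⊗ₜ[A₀] (1 : B₀), ?_⟩
        change (Algebra.TensorProduct.productMap (IsScalarTower.toAlgHom A₀ (R ⊗[F] P) B)
          (IsScalarTower.toAlgHom A₀ B₀ B)) _ = _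
        rw [Algebra.TensorProduct.productMap_apply_tmul, map_one, mul_one]
        change algebraMap (R ⊗[F] P) B (r ⊗ₜ 1) = _
        rw [hA₁B, map_one, mul_one]
        rfl
      | add x y _ _ hx hy => exact add_mem hx hy
      | mul x y _ _ hx hy => exact mul_mem hx hy
    · rintro ⟨x, rfl⟩
      change (Algebra.TensorProduct.productMap (IsScalarTower.toAlgHom A₀ (R ⊗[F] P) B)
        (IsScalarTower.toAlgHom A₀ B₀ B)) x ∈ _
      induction x using TensorProduct.induction_on with
      | zero => rw [map_zero]; exact zero_mem _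
      | add x y hx hy => rw [map_add]; exact add_mem hx hy
      | tmul x y =>
        rw [Algebra.TensorProduct.productMap_apply_tmul]
        exact mul_mem (hA₁mem x) (hB₀mem y)
  obtain ⟨⟨g, hg1, hg2⟩, h3⟩ := P3_core (R := R) (K := K) (A₁ := R ⊗[F] P) (A := K ⊗[F] P)
    (A₀ := A₀) (B₀ := B₀) (B := B) hι
    (BR F K P B R (algebraMap B₀ B '' (gens : Set B₀))) hC
  refine ⟨?_, h3⟩
  have h4 : lam F R P (BR F K P B R (algebraMap B₀ B '' (gens : Set B₀))) = g := by
    refine RingHom.ext fun x => Subtype.ext ?_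
    rw [hg1]
    induction x using TensorProduct.induction_on with
    | zero => simp
    | add x y hx hy =>
      rw [map_add, map_add, ← hx, ← hy]
      rfl
    | tmul r p =>
      rw [hA₁B]
      rfl
  rw [h4]
  exact hg2
-- END P3

-- BEGIN P4
section P4sec

open Polynomial

private theorem P4_pow {T : Type u} [CommRing T] {K : Type u} [Field K] [Algebra K T] (y : T)
    {n : ℕ} (b : Module.Basis (Fin n × ℕ) K T) (hb : ∀ j i, y * b (j, i) = b (j, i + 1))
    (j : Fin n) (i : ℕ) : y ^ i * b (j, 0) = b (j, i) := by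
  induction i with
  | zero => rw [pow_zero, one_mul]
  | succ i ih => rw [pow_succ', mul_assoc, ih, hb]

private theorem P4_repr {T : Type u} [CommRing T] {K : Type u} [Field K] [Algebra K T] (y : T)
    {n : ℕ} (b : Module.Basis (Fin n × ℕ) K T) (hb : ∀ j i, y * b (j, i) = b (j, i + 1))
    (j j' : Fin n) (i' : ℕ) (p : K[X]) :
    b.repr (aeval y p * b (j, 0)) (j', i') = if j = j' then p.coeff i' else 0 := by
  induction p using Polynomial.induction_on' with
  | add p q hp hq =>
    rw [map_add, add_mul, map_add, Finsupp.add_apply, hp, hq, coeff_add]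
    split_ifs
    · rfl
    · rw [add_zero]
  | monomial i a =>
    rw [aeval_monomial, mul_assoc, P4_pow y b hb, ← Algebra.smul_def, map_smul,
      b.repr_self, Finsupp.smul_single, smul_eq_mul, mul_one, coeff_monomial]
    by_cases h1 : j = j'
    · subst h1
      by_cases h2 : i = i'
      · subst h2
        simp
      · rw [Finsupp.single_eq_of_ne (by simpa using Ne.symm h2)]
        simp [h2]
    · rw [Finsupp.single_eq_of_ne (by
        intro h
        exact h1 (congrArg Prod.fst h).symm)]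
      simp [h1]

private theorem P4_free {T : Type u} [CommRing T] {K : Type u} [Field K] [Algebra K T] (y : T)
    {n : ℕ} (b : Module.Basis (Fin n × ℕ) K T) (hb : ∀ j i, y * b (j, i) = b (j, i + 1))
    [Algebra K[X] T] (ha : ∀ p : K[X], algebraMap K[X] T p = aeval y p) :
    Module.Finite K[X] T ∧ Module.Free K[X] T := by
  have hli : LinearIndependent K[X] (fun j : Fin n => b (j, 0)) := by
    rw [Fintype.linearIndependent_iff]
    intro g hg j
    ext i
    have h1 : b.repr (∑ j, g j • b (j, 0)) (j, i) = 0 := by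
      rw [hg, map_zero, Finsupp.zero_apply]
    rw [map_sum, Finsupp.finsetSum_apply] at h1
    rw [Finset.sum_congr rfl (fun k _ => by
      rw [Algebra.smul_def, ha, P4_repr y b hb k j i (g k)])] at h1
    rw [Finset.sum_ite_eq' Finset.univ j (fun k => (g k).coeff i), if_pos (Finset.mem_univ j)] at h1
    rw [h1, coeff_zero]
  have hsp : ⊤ ≤ Submodule.span K[X] (Set.range (fun j : Fin n => b (j, 0))) := by
    have hst : ∀ (a : K) (t : T), a • t = (C a : K[X]) • t := by
      intro a t
      rw [Algebra.smul_def, Algebra.smul_def, ha, aeval_C]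
    intro t _
    have h1 := b.mem_span t
    induction h1 using Submodule.span_induction with
    | mem t ht =>
      obtain ⟨⟨j, i⟩, rfl⟩ := ht
      have h2 : b (j, i) = (X ^ i : K[X]) • b (j, 0) := by
        rw [Algebra.smul_def, ha, map_pow, aeval_X, P4_pow y b hb]
      rw [h2]
      exact Submodule.smul_mem _ _ (Submodule.subset_span ⟨j, rfl⟩)
    | zero => exact Submodule.zero_mem _
    | add s t _ _ hs ht => exact Submodule.add_mem _ (hs trivial) (ht trivial)
    | smul a t _ ht =>
      rw [hst]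
      exact Submodule.smul_mem _ _ (ht trivial)
  exact ⟨Module.Finite.of_basis (Module.Basis.mk hli hsp),
    Module.Free.of_basis (Module.Basis.mk hli hsp)⟩

/-- (P4) The ring `B` is a finite free module over `K[x]`: it is finite and flat over `K ⊗ P`, which is finite free over
`K[x]`; and `K[x]` is a principal ideal domain. -/
theorem exists_adapted_basis (x : P) (hP : FreeOver (F := F) x) (hB : (lam F K P B).Etale)
    (hBf : (lam F K P B).Finite) :
    ∃ (n : ℕ) (b : Module.Basis (Fin n × ℕ) K B),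
      ∀ j i, algebraMap P B x * b (j, i) = b (j, i + 1) := by
  obtain ⟨n, e, he⟩ := hP
  let _ : Algebra K[X] (K ⊗[F] P) :=
    (aeval (R := K) (1 ⊗ₜ[F] x : K ⊗[F] P)).toRingHom.toAlgebra
  let _ : Algebra K[X] B := (aeval (R := K) (algebraMap P B x)).toRingHom.toAlgebra
  let _ : Algebra (K ⊗[F] P) B := (lam F K P B).toAlgebra
  have haT : ∀ p : K[X], algebraMap K[X] (K ⊗[F] P) p =
    aeval (R := K) (1 ⊗ₜ[F] x : K ⊗[F] P) p := fun _ => rfl
  have haB : ∀ p : K[X], algebraMap K[X] B p = aeval (R := K) (algebraMap P B x) p := fun _ => rfl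
  have hl1 : ∀ a : K, lam F K P B (algebraMap K (K ⊗[F] P) a) = algebraMap K B a := by
    intro a
    rw [Algebra.TensorProduct.algebraMap_apply]
    show Algebra.TensorProduct.productMap _ _ _ = _
    rw [Algebra.TensorProduct.productMap_apply_tmul, map_one, mul_one]
    rfl
  have hl2 : lam F K P B (1 ⊗ₜ[F] x) = algebraMap P B x := by
    show Algebra.TensorProduct.productMap _ _ _ = _
    rw [Algebra.TensorProduct.productMap_apply_tmul, map_one, one_mul]
    rfl
  have : IsScalarTower K[X] (K ⊗[F] P) B := by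
    refine IsScalarTower.of_algebraMap_eq' ?_
    refine Polynomial.ringHom_ext (fun a => ?_) ?_
    · rw [haB, aeval_C, RingHom.comp_apply, haT, aeval_C]
      exact (hl1 a).symm
    · rw [haB, aeval_X, RingHom.comp_apply, haT, aeval_X]
      exact hl2.symm
  have : IsScalarTower K K[X] B := by
    refine IsScalarTower.of_algebraMap_eq fun a => ?_
    rw [Polynomial.algebraMap_eq, haB, aeval_C]
  have hbT : ∀ j i, (1 ⊗ₜ[F] x : K ⊗[F] P) * (e.baseChange K) (j, i) = (e.baseChange K) (j, i + 1) := by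
    intro j i
    rw [Module.Basis.baseChange_apply, Module.Basis.baseChange_apply,
      Algebra.TensorProduct.tmul_mul_tmul, one_mul, he]
  obtain ⟨h1, h2⟩ := P4_free (1 ⊗ₜ[F] x : K ⊗[F] P) (e.baseChange K) hbT haT
  have : Algebra.Etale (K ⊗[F] P) B := hB
  have : Module.Finite (K ⊗[F] P) B := hBf
  have : Module.Flat (K ⊗[F] P) B := inferInstance
  have : Module.Flat K[X] B := Module.Flat.trans K[X] (K ⊗[F] P) B
  have : Module.Finite K[X] B := Module.Finite.trans (K ⊗[F] P) B
  have : Module.Free K[X] B := Module.free_of_finite_type_torsion_free'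
  refine ⟨Module.finrank K[X] B, (basisMonomials K).smulTower' (Module.finBasis K[X] B),
    fun j i => ?_⟩
  rw [Module.Basis.smulTower'_apply, Module.Basis.smulTower'_apply]
  simp only [coe_basisMonomials]
  have h3 : algebraMap P B x = algebraMap K[X] B X := by rw [haB, aeval_X]
  rw [h3, ← Algebra.smul_def, ← mul_smul, X_mul_monomial]

end P4sec
-- END P4

-- BEGIN P5
/-- finitely many conditions can be satisfied together -/
private theorem P5_unif {ι : Type*} [Finite ι] (Q : ι → Subalgebra F K → Prop)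
    (h : ∀ i, ∃ R₁ : Subalgebra F K, R₁.FG ∧ ∀ R, R₁ ≤ R → Q i R) :
    ∃ R₁ : Subalgebra F K, R₁.FG ∧ ∀ R, R₁ ≤ R → ∀ i, Q i R := by
  classical
  cases nonempty_fintype ι
  choose R₁ h1 h2 using h
  refine ⟨Finset.univ.sup R₁, ?_, fun R hR i => h2 i R ((Finset.le_sup (Finset.mem_univ i)).trans hR)⟩
  exact Finset.sup_induction (p := fun A : Subalgebra F K => A.FG) Subalgebra.fg_bot
    (fun a ha b hb => ha.sup hb) fun i _ => h1 i

/-- a single element has coefficients in a finitely generated subalgebra -/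
private theorem P5_coef {ι : Type*} (b : Module.Basis ι K B) (y : B) :
    ∃ R₁ : Subalgebra F K, R₁.FG ∧ ∀ R : Subalgebra F K, R₁ ≤ R →
      y ∈ Submodule.span R (Set.range b) := by
  classical
  refine ⟨Algebra.adjoin F (((b.repr y).support.image (b.repr y) : Finset K) : Set K),
    Subalgebra.fg_adjoin_finset _, fun R hR => ?_⟩
  rw [← b.linearCombination_repr y, Finsupp.linearCombination_apply, Finsupp.sum]
  refine Submodule.sum_mem _ fun i hi => ?_
  have h1 : b.repr y i ∈ R := hR (Algebra.subset_adjoin (by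
    simpa using ⟨i, by simpa using hi, rfl⟩))
  exact Submodule.smul_mem (Submodule.span R (Set.range b)) (⟨_, h1⟩ : R)
    (Submodule.subset_span ⟨i, rfl⟩)

/-- (P5) Spreading out of the basis: for large `R` the elements `b (j, i)` form a basis of the `R`-module `BR`. Proof: for
large `R` they belong to `BR` (P2); the products `b (j, 0) b (k, 0)`, `1`, `p b (j, 0)` for generators `p` of the `F`-algebra
`P` and the elements of `S` are combinations of the `b (j, i)` with coefficients in `R` (finitely many conditions), so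
the `R`-span of the `b (j, i)` is a subring containing `P`, `S`, hence is equal to `BR`. -/
theorem exists_spread_basis [Algebra.FiniteType F P] (x : P) {n : ℕ}
    (b : Module.Basis (Fin n × ℕ) K B) (hb : ∀ j i, algebraMap P B x * b (j, i) = b (j, i + 1))
    (R₁ : Subalgebra F K) (S : Set B) (hS : S.Finite)
    (h : Submodule.span K (BR F K P B R₁ S : Set B) = ⊤) :
    ∃ R₂ : Subalgebra F K, R₂.FG ∧ ∀ R : Subalgebra F K, R₁ ≤ R → R₂ ≤ R →
      ∃ e : Module.Basis (Fin n × ℕ) R (BR F K P B R S),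
        (∀ j i, (e (j, i) : B) = b (j, i)) ∧
        ∀ j i, algebraMap P (BR F K P B R S) x * e (j, i) = e (j, i + 1) := by
  classical
  obtain ⟨gens, hgens⟩ := (inferInstance : Algebra.FiniteType F P).out
  have : Finite S := hS
  -- the conditions
  obtain ⟨Ra, ha1, ha2⟩ := P5_unif (F := F) (K := K) (ι := Fin n)
    (fun j R => R₁ ≤ R → b (j, 0) ∈ BR F K P B R S) (fun j => by
      obtain ⟨R', h1, h2⟩ := BR.exists_mem F K P B R₁ S h (b (j, 0))
      exact ⟨R', h1, fun R hR hR1 => h2 R hR1 hR⟩)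
  obtain ⟨Rb, hb1, hb2⟩ := P5_coef (F := F) b (1 : B)
  obtain ⟨Rc, hc1, hc2⟩ := P5_unif (F := F) (K := K) (ι := S)
    (fun s R => (s : B) ∈ Submodule.span R (Set.range b)) (fun s => P5_coef b (s : B))
  obtain ⟨Rd, hd1, hd2⟩ := P5_unif (F := F) (K := K) (ι := Fin n × Fin n)
    (fun q R => b (q.1, 0) * b (q.2, 0) ∈ Submodule.span R (Set.range b))
    (fun q => P5_coef b _)
  obtain ⟨Re, he1, he2⟩ := P5_unif (F := F) (K := K) (ι := gens × Fin n)
    (fun q R => algebraMap P B (q.1 : P) * b (q.2, 0) ∈ Submodule.span R (Set.range b))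
    (fun q => P5_coef b _)
  refine ⟨Ra ⊔ Rb ⊔ Rc ⊔ Rd ⊔ Re, (((ha1.sup hb1).sup hc1).sup hd1).sup he1,
    fun R hR1 hR2 => ?_⟩
  have hRa : Ra ≤ R := (le_sup_left.trans (le_sup_left.trans (le_sup_left.trans le_sup_left))).trans hR2
  have hRb : Rb ≤ R := (le_sup_right.trans (le_sup_left.trans (le_sup_left.trans le_sup_left))).trans hR2
  have hRc : Rc ≤ R := (le_sup_right.trans (le_sup_left.trans le_sup_left)).trans hR2
  have hRd : Rd ≤ R := (le_sup_right.trans le_sup_left).trans hR2
  have hRe : Re ≤ R := le_sup_right.trans hR2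
  have kb := hb2 R hRb
  have kc := hc2 R hRc
  have kd := hd2 R hRd
  have ke := he2 R hRe
  set M : Submodule R B := Submodule.span R (Set.range b) with hM
  have hbM : ∀ i, b i ∈ M := fun i => Submodule.subset_span ⟨i, rfl⟩
  -- powers of `x`
  have hxi : ∀ j i, b (j, i) = algebraMap P B x ^ i * b (j, 0) := by
    intro j i
    induction i with
    | zero => rw [pow_zero, one_mul]
    | succ i ih => rw [← hb, ih, pow_succ]; ring
  have hxM : ∀ y ∈ M, algebraMap P B x * y ∈ M := by
    intro y hy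
    rw [hM] at hy
    induction hy using Submodule.span_induction with
    | mem y hy =>
      obtain ⟨⟨j, i⟩, rfl⟩ := hy
      rw [hb]
      exact hbM _
    | zero => rw [mul_zero]; exact zero_mem _
    | add y z _ _ h1 h2 => rw [mul_add]; exact add_mem h1 h2
    | smul r y _ h1 =>
      rw [mul_smul_comm]
      exact M.smul_mem r h1
  have hxM' : ∀ (i : ℕ), ∀ y ∈ M, algebraMap P B x ^ i * y ∈ M := by
    intro i
    induction i with
    | zero => intro y hy; rwa [pow_zero, one_mul]
    | succ i ih =>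
      intro y hy
      rw [pow_succ, mul_assoc]
      exact ih _ (hxM y hy)
  have hmul : ∀ y ∈ M, ∀ z ∈ M, y * z ∈ M := by
    intro y hy z hz
    have h1 : y * z ∈ M * M := Submodule.mul_mem_mul hy hz
    rw [hM, Submodule.span_mul_span] at h1
    refine (Submodule.span_le.2 ?_) h1
    rintro _ ⟨_, ⟨⟨j, i⟩, rfl⟩, _, ⟨⟨k, l⟩, rfl⟩, rfl⟩
    change b (j, i) * b (k, l) ∈ M
    rw [hxi j i, hxi k l]
    have h2 : algebraMap P B x ^ i * b (j, 0) * (algebraMap P B x ^ l * b (k, 0)) =
        algebraMap P B x ^ (i + l) * (b (j, 0) * b (k, 0)) := by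
      rw [pow_add]; ring
    rw [h2]
    exact hxM' _ _ (kd (j, k))
  set A : Subalgebra R B := M.toSubalgebra kb (fun y z hy hz => hmul y hy z hz) with hA
  have hAM : ∀ y, y ∈ A ↔ y ∈ M := fun y => Iff.rfl
  -- `P` and `S` are contained in `A`
  have hPM : ∀ p : P, ∀ y ∈ M, algebraMap P B p * y ∈ M := by
    intro p
    have hp : p ∈ Algebra.adjoin F (gens : Set P) := by
      rw [hgens]
      exact Algebra.mem_top
    induction hp using Algebra.adjoin_induction with
    | mem g hg =>
      intro y hy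
      rw [hM] at hy
      induction hy using Submodule.span_induction with
      | mem y hy =>
        obtain ⟨⟨j, i⟩, rfl⟩ := hy
        rw [hxi j i]
        have h2 : algebraMap P B g * (algebraMap P B x ^ i * b (j, 0)) =
            algebraMap P B x ^ i * (algebraMap P B g * b (j, 0)) := by ring
        rw [h2]
        exact hxM' _ _ (ke (⟨g, hg⟩, j))
      | zero => rw [mul_zero]; exact zero_mem _
      | add y z _ _ h1 h2 => rw [mul_add]; exact add_mem h1 h2
      | smul r y _ h1 =>
        rw [mul_smul_comm]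
        exact M.smul_mem r h1
    | algebraMap c =>
      intro y hy
      rw [← IsScalarTower.algebraMap_apply F P B, ← Algebra.smul_def]
      have h2 : c • y = (algebraMap F R c) • y := (algebraMap_smul R c y).symm
      rw [h2]
      exact M.smul_mem _ hy
    | add p q _ _ h1 h2 =>
      intro y hy
      rw [map_add, add_mul]
      exact add_mem (h1 y hy) (h2 y hy)
    | mul p q _ _ h1 h2 =>
      intro y hy
      rw [map_mul, mul_assoc]
      exact h1 _ (h2 y hy)
  have hle : BR F K P B R S ≤ A := by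
    refine Algebra.adjoin_le ?_
    rintro y (⟨p, rfl⟩ | hy)
    · change algebraMap P B p ∈ M
      have := hPM p 1 kb
      rwa [mul_one] at this
    · exact kc ⟨y, hy⟩
  have hbBR : ∀ i, b i ∈ BR F K P B R S := by
    rintro ⟨j, i⟩
    rw [hxi]
    have h1 : algebraMap P B x ∈ BR F K P B R S :=
      Algebra.subset_adjoin (Set.mem_union_left _ ⟨x, rfl⟩)
    exact mul_mem (pow_mem h1 i) (ha2 R hRa j hR1)
  set e0 : Fin n × ℕ → BR F K P B R S := fun i => ⟨b i, hbBR i⟩ with he0
  have hli : LinearIndependent R e0 := by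
    have h1 : LinearIndependent R b := b.linearIndependent.restrict_scalars (by
      intro r s hrs
      have : (r : K) = s := by simpa [Subalgebra.smul_def] using hrs
      exact Subtype.ext this)
    exact LinearIndependent.of_comp (BR F K P B R S).val.toLinearMap h1
  have hsp : ⊤ ≤ Submodule.span R (Set.range e0) := by
    rintro ⟨y, hy⟩ -
    have h1 : y ∈ M := hle hy
    have h2 : M = (Submodule.span R (Set.range e0)).map (BR F K P B R S).val.toLinearMap := by
      rw [Submodule.map_span, ← Set.range_comp]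
      rfl
    rw [h2] at h1
    obtain ⟨z, hz, hzy⟩ := h1
    have h3 : z = ⟨y, hy⟩ := Subtype.ext hzy
    rw [← h3]
    exact hz
  refine ⟨Module.Basis.mk hli hsp, ?_, ?_⟩
  · intro j i
    rw [Module.Basis.mk_apply]
  · intro j i
    rw [Module.Basis.mk_apply, Module.Basis.mk_apply]
    refine Subtype.ext ?_
    exact hb j i
-- END P5

section glue

variable {P' Q B' G : Type u} [CommRing P'] [CommRing Q] [CommRing B'] [CommRing G]
  [Algebra F P'] [Algebra F Q] [Algebra P Q] [Algebra P' Q] [IsScalarTower F P Q]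
  [IsScalarTower F P' Q]
  [Algebra K B'] [Algebra P' B'] [Algebra F B'] [IsScalarTower F K B'] [IsScalarTower F P' B']
  [Algebra K G] [Algebra F G] [IsScalarTower F K G] [Algebra P G] [Algebra P' G] [Algebra Q G]
  [IsScalarTower P Q G] [IsScalarTower P' Q G] [IsScalarTower F Q G]
  [Algebra B G] [Algebra B' G] [IsScalarTower K B G] [IsScalarTower K B' G]
  [IsScalarTower P B G] [IsScalarTower P' B' G]

variable (F K P B Q G) in
-- BEGIN P6
/-- (P6) The map from `BR` to the corresponding subalgebra of `G`, for a set `S₁` containing the image of `S`. -/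
def BRmap (R : Subalgebra F K) (S : Set B) (S₁ : Set G) (hS : algebraMap B G '' S ⊆ S₁) :
    BR F K P B R S →+* BR F K Q G R S₁ :=
  ((algebraMap B G).comp (BR F K P B R S).val.toRingHom).codRestrict (BR F K Q G R S₁) (by
    rintro ⟨z, hz⟩
    change algebraMap B G z ∈ BR F K Q G R S₁
    unfold BR at hz
    induction hz using Algebra.adjoin_induction with
    | mem z hz =>
      apply Algebra.subset_adjoin
      rcases hz with ⟨p, rfl⟩ | hz
      · left
        refine ⟨algebraMap P Q p, ?_⟩
        rw [← IsScalarTower.algebraMap_apply P Q G, ← IsScalarTower.algebraMap_apply P B G]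
      · right
        exact hS ⟨z, hz, rfl⟩
    | algebraMap r =>
      have h1 : algebraMap B G (algebraMap R B r) = algebraMap R G r := by
        change algebraMap B G (algebraMap K B (r : K)) = algebraMap K G (r : K)
        rw [← IsScalarTower.algebraMap_apply K B G]
      rw [h1]
      exact Subalgebra.algebraMap_mem _ r
    | add x y _ _ hx hy => rw [map_add]; exact add_mem hx hy
    | mul x y _ _ hx hy => rw [map_mul]; exact mul_mem hx hy)
-- END P6

-- BEGIN P7
/-- finitely many conditions can be satisfied together -/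
private theorem P7_unif {ι : Type*} [Finite ι] (Q : ι → Subalgebra F K → Prop)
    (h : ∀ i, ∃ R₁ : Subalgebra F K, R₁.FG ∧ ∀ R, R₁ ≤ R → Q i R) :
    ∃ R₁ : Subalgebra F K, R₁.FG ∧ ∀ R, R₁ ≤ R → ∀ i, Q i R := by
  classical
  cases nonempty_fintype ι
  choose R₁ h1 h2 using h
  refine ⟨Finset.univ.sup R₁, ?_, fun R hR i => h2 i R ((Finset.le_sup (Finset.mem_univ i)).trans hR)⟩
  exact Finset.sup_induction (p := fun A : Subalgebra F K => A.FG) Subalgebra.fg_bot
    (fun a ha b hb => ha.sup hb) fun i _ => h1 i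

/-- (P7) The localization property for large `R`. The ring `BR F K Q G R S₁`, `S₁ = S ∪ S'` (images in `G`), is the localization of
`BR F K P B R S` at `x`, for large `R`: for every `s' ∈ S'` some `x ^ N s'` comes from `B`, hence from `BR F K P B R S` for large `R`
(P2), the same for elements of `Q`, without condition on `R`. The map is injective since `x` is a nonzerodivisor in
`B` (basis). `x` is a unit in `Q`. -/
theorem exists_spread_localization (x : P) (x' : P') [IsLocalization.Away x Q]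
    (hxx' : algebraMap P Q x * algebraMap P' Q x' = 1)
    [IsLocalization.Away (algebraMap P B x) G] {n : ℕ}
    (b : Module.Basis (Fin n × ℕ) K B) (hb : ∀ j i, algebraMap P B x * b (j, i) = b (j, i + 1))
    (R₁ : Subalgebra F K) (S : Set B) (S₁ : Set G) (hS₁ : S₁.Finite)
    (h : Submodule.span K (BR F K P B R₁ S : Set B) = ⊤) (hS : algebraMap B G '' S ⊆ S₁) :
    ∃ R₂ : Subalgebra F K, R₂.FG ∧ ∀ R : Subalgebra F K, R₁ ≤ R → R₂ ≤ R →
      letI := (BRmap F K P B Q G R S S₁ hS).toAlgebra
      IsLocalization.Away (algebraMap P (BR F K P B R S) x) (BR F K Q G R S₁) := by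
  have : Finite S₁ := hS₁
  have hsurj : ∀ g : G, ∃ (N : ℕ) (c : B), g * algebraMap B G (algebraMap P B x) ^ N =
      algebraMap B G c := by
    intro g
    obtain ⟨⟨c, ⟨_, N, rfl⟩⟩, hc⟩ := IsLocalization.surj
      (Submonoid.powers (algebraMap P B x)) g
    refine ⟨N, c, ?_⟩
    simpa using hc
  choose N c hNc using hsurj
  obtain ⟨R₂, h1, h2⟩ := P7_unif (F := F) (K := K) (ι := S₁)
    (fun s R => R₁ ≤ R → c (s : G) ∈ BR F K P B R S) (fun s => by
      obtain ⟨R', h1, h2⟩ := BR.exists_mem F K P B R₁ S h (c (s : G))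
      exact ⟨R', h1, fun R hR hR1 => h2 R hR1 hR⟩)
  refine ⟨R₂, h1, fun R hR1 hR2 => ?_⟩
  letI := (BRmap F K P B Q G R S S₁ hS).toAlgebra
  have hφ : ∀ y : BR F K P B R S, ((algebraMap (BR F K P B R S) (BR F K Q G R S₁) y :
      BR F K Q G R S₁) : G) = algebraMap B G (y : B) := fun y => rfl
  have hx : ((algebraMap P (BR F K P B R S) x : BR F K P B R S) : B) = algebraMap P B x := rfl
  have hxG : algebraMap B G (algebraMap P B x) = algebraMap Q G (algebraMap P Q x) := by
    rw [← IsScalarTower.algebraMap_apply P B G, ← IsScalarTower.algebraMap_apply P Q G]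
  have hQ : ∀ q : Q, algebraMap Q G q ∈ BR F K Q G R S₁ := fun q =>
    Algebra.subset_adjoin (Set.mem_union_left _ ⟨q, rfl⟩)
  have hP : ∀ p : P, algebraMap P B p ∈ BR F K P B R S := fun p =>
    Algebra.subset_adjoin (Set.mem_union_left _ ⟨p, rfl⟩)
  refine ⟨?_, ?_, ?_⟩
  · -- units
    rintro ⟨_, k, rfl⟩
    rw [map_pow]
    refine IsUnit.pow k ?_
    refine isUnit_iff_exists_inv.2 ⟨⟨algebraMap Q G (algebraMap P' Q x'), hQ _⟩, ?_⟩
    refine Subtype.ext ?_
    change algebraMap B G (algebraMap P B x) * algebraMap Q G (algebraMap P' Q x') = 1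
    rw [hxG, ← map_mul, hxx', map_one]
  · -- surjectivity
    have key : ∀ g ∈ BR F K Q G R S₁, ∃ (k : ℕ) (d : B), d ∈ BR F K P B R S ∧
        g * algebraMap B G (algebraMap P B x) ^ k = algebraMap B G d := by
      intro g hg
      induction hg using Algebra.adjoin_induction with
      | mem g hg =>
        rcases hg with ⟨q, rfl⟩ | hg
        · obtain ⟨⟨p, ⟨_, k, rfl⟩⟩, hp⟩ := IsLocalization.surj (Submonoid.powers x) q
          refine ⟨k, algebraMap P B p, hP p, ?_⟩
          have hp' : q * algebraMap P Q x ^ k = algebraMap P Q p := by simpa using hp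
          rw [hxG, ← map_pow, ← map_mul, hp', ← IsScalarTower.algebraMap_apply P Q G,
            ← IsScalarTower.algebraMap_apply P B G]
        · exact ⟨N g, c g, h2 R hR2 ⟨g, hg⟩ hR1, hNc g⟩
      | algebraMap r =>
        refine ⟨0, algebraMap R B r, Subalgebra.algebraMap_mem _ r, ?_⟩
        rw [pow_zero, mul_one]
        change algebraMap K G (r : K) = algebraMap B G (algebraMap K B (r : K))
        exact IsScalarTower.algebraMap_apply K B G _
      | add g g' _ _ ih ih' =>
        obtain ⟨k, d, hd, hk⟩ := ih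
        obtain ⟨k', d', hd', hk'⟩ := ih'
        refine ⟨k + k', d * algebraMap P B x ^ k' + d' * algebraMap P B x ^ k,
          add_mem (mul_mem hd (pow_mem (hP x) _)) (mul_mem hd' (pow_mem (hP x) _)), ?_⟩
        rw [map_add, map_mul, map_mul, ← hk, ← hk', map_pow, map_pow, pow_add]
        ring
      | mul g g' _ _ ih ih' =>
        obtain ⟨k, d, hd, hk⟩ := ih
        obtain ⟨k', d', hd', hk'⟩ := ih'
        refine ⟨k + k', d * d', mul_mem hd hd', ?_⟩
        rw [map_mul, ← hk, ← hk', pow_add]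
        ring
    rintro ⟨g, hg⟩
    obtain ⟨k, d, hd, hk⟩ := key g hg
    refine ⟨⟨⟨d, hd⟩, ⟨algebraMap P (BR F K P B R S) x ^ k, k, rfl⟩⟩, ?_⟩
    refine Subtype.ext ?_
    change g * algebraMap B G (((algebraMap P (BR F K P B R S) x ^ k :
      BR F K P B R S) : B)) = algebraMap B G d
    rw [SubmonoidClass.coe_pow, hx, map_pow]
    exact hk
  · -- injectivity up to powers of `x`
    intro y z hyz
    have h3 : algebraMap B G (y : B) = algebraMap B G (z : B) := congrArg Subtype.val hyz
    obtain ⟨⟨_, k, rfl⟩, hk⟩ := IsLocalization.exists_of_eq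
      (M := Submonoid.powers (algebraMap P B x)) h3
    refine ⟨⟨algebraMap P (BR F K P B R S) x ^ k, k, rfl⟩, ?_⟩
    refine Subtype.ext ?_
    change ((algebraMap P (BR F K P B R S) x ^ k : BR F K P B R S) : B) * (y : B) =
      ((algebraMap P (BR F K P B R S) x ^ k : BR F K P B R S) : B) * (z : B)
    rw [SubmonoidClass.coe_pow, hx]
    exact hk
-- END P7

end glue

end Pool.Agent.Lib.MP_211349_ag
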