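import Pool.Agent.Lib.MP_211349_ag.T.Level
import Pool.Agent.Lib.MP_211349_ag.T.Spread

/-!
# Constancy of étale coverings: the main theorem of PART T
-/

open TensorProduct

universe u

noncomputable section

namespace Pool.Agent.Lib.MP_211349_ag

-- BEGIN P8
/-- `P` finite free over `F[x]` is of finite type -/
private theorem P8_finiteType {F P : Type u} [Field F] [CommRing P] [Algebra F P] {x : P}
    (h : FreeOver (F := F) x) : Algebra.FiniteType F P := by
  classical
  obtain ⟨n, e, he⟩ := h
  refine ⟨⟨insert x (Finset.univ.image fun j : Fin n => e (j, 0)), ?_⟩⟩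
  rw [eq_top_iff]
  intro y _
  rw [← e.linearCombination_repr y, Finsupp.linearCombination_apply, Finsupp.sum]
  refine Subalgebra.sum_mem _ fun k _ => Subalgebra.smul_mem _ ?_ _
  obtain ⟨j, i⟩ := k
  have h1 : ∀ i : ℕ, e (j, i) ∈ Algebra.adjoin F
      (↑(insert x (Finset.univ.image fun j : Fin n => e (j, 0))) : Set P) := by
    intro i
    induction i with
    | zero => exact Algebra.subset_adjoin (by simp)
    | succ i ih =>
      rw [← he]
      exact mul_mem (Algebra.subset_adjoin (by simp)) ih
  exact h1 i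

private theorem P8_equiv {R K B E : Type u} [CommRing R] [CommRing K] [CommRing B] [CommRing E]
    [Algebra R K] [Algebra K B] [Algebra R B] [IsScalarTower R K B] [Algebra R E] (v : E →ₐ[R] B)
    (h : Function.Bijective (Algebra.TensorProduct.productMap (IsScalarTower.toAlgHom R K B) v)) :
    ∃ e : K ⊗[R] E ≃ₐ[K] B, ∀ z, e (1 ⊗ₜ z) = v z := by
  let f : K ⊗[R] E →ₐ[K] B :=
    Algebra.TensorProduct.lift (Algebra.ofId K B) v (fun _ _ => Commute.all _ _)
  have hf : ∀ z, f z = Algebra.TensorProduct.productMap (IsScalarTower.toAlgHom R K B) v z := by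
    intro z
    induction z using TensorProduct.induction_on with
    | zero => rw [map_zero, map_zero]
    | add z w hz hw => rw [map_add, map_add, hz, hw]
    | tmul k z => rfl
  have h1 : Function.Bijective f := by
    have h2 : (f : K ⊗[R] E → B) = Algebra.TensorProduct.productMap
        (IsScalarTower.toAlgHom R K B) v := funext hf
    rw [h2]
    exact h
  refine ⟨AlgEquiv.ofBijective f h1, fun z => ?_⟩
  change f (1 ⊗ₜ z) = v z
  rw [hf, Algebra.TensorProduct.productMap_apply_tmul, map_one, one_mul]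

/-- (P8) Let the curve `X` over the algebraically closed field `F` be glued of `Spec P` and `Spec P'` along
`Spec Q` (where `Q = P[1/x] = P'[1/x']`, `x x' = 1`, `P` is finite free over `F[x]` and `P'` over
`F[x']`), and let a finite étale covering of `X ⊗ K` be glued of `Spec B` and `Spec B'` along `Spec G`.
Then `B` is the base change of a finite étale `P`-algebra `B₀`.
Assembly: (P3) for `B` and `B'` (sets `S`, `S'`), (P4), (P5) for both, `S₁` = union of the images of `S`, `S'` in `G`, (P7) for
`B` and (by symmetry) for `B'`; let `R` be the supremum of the finitely many finitely generated subalgebras; then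
`constant_of_model` (L10) for `E = BR F K P B R S`, `E' = BR F K P' B' R S'`, `G = BR F K Q G R S₁`, and `K ⊗_R E = B` by (P3).
(`Algebra.FiniteType F P` follows from `FreeOver`.) -/
theorem constant_cover {F K P P' Q B B' G : Type u} [Field F] [IsAlgClosed F] [Field K]
    [IsAlgClosed K] [Algebra F K] [CommRing P] [CommRing P'] [CommRing Q] [CommRing B]
    [CommRing B'] [CommRing G] [Algebra F P] [Algebra F P'] [Algebra F Q] [Algebra P Q]
    [Algebra P' Q] [IsScalarTower F P Q] [IsScalarTower F P' Q] (x : P) (x' : P')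
    [IsLocalization.Away x Q] [IsLocalization.Away x' Q]
    (hxx' : algebraMap P Q x * algebraMap P' Q x' = 1) (hP : FreeOver (F := F) x)
    (hP' : FreeOver (F := F) x')
    [Algebra K B] [Algebra P B] [Algebra F B] [IsScalarTower F K B] [IsScalarTower F P B]
    [Algebra K B'] [Algebra P' B'] [Algebra F B'] [IsScalarTower F K B'] [IsScalarTower F P' B']
    [Algebra K G] [Algebra F G] [IsScalarTower F K G] [Algebra P G] [Algebra P' G] [Algebra Q G]
    [IsScalarTower P Q G] [IsScalarTower P' Q G] [IsScalarTower F Q G]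
    [Algebra B G] [Algebra B' G] [IsScalarTower K B G] [IsScalarTower K B' G]
    [IsScalarTower P B G] [IsScalarTower P' B' G]
    (hB : (lam F K P B).Etale) (hBf : (lam F K P B).Finite)
    (hB' : (lam F K P' B').Etale) (hBf' : (lam F K P' B').Finite)
    [IsLocalization.Away (algebraMap P B x) G] [IsLocalization.Away (algebraMap P' B' x') G] :
    ∃ (B₀ : Type u) (_ : CommRing B₀) (_ : Algebra F B₀) (_ : Algebra P B₀)
      (_ : IsScalarTower F P B₀), Algebra.Etale P B₀ ∧ Module.Finite P B₀ ∧
      ∃ e : K ⊗[F] B₀ ≃ₐ[K] B, ∀ p : P, e (1 ⊗ₜ algebraMap P B₀ p) = algebraMap P B p := by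
  have hPt : Algebra.FiniteType F P := P8_finiteType hP
  have hPt' : Algebra.FiniteType F P' := P8_finiteType hP'
  obtain ⟨Ra, S, ha1, ha2, ha3⟩ := exists_spread_etale hB
  obtain ⟨Rb, S', hb1, hb2, hb3⟩ := exists_spread_etale hB'
  obtain ⟨n, b, hb⟩ := exists_adapted_basis x hP hB hBf
  obtain ⟨n', b', hb'⟩ := exists_adapted_basis x' hP' hB' hBf'
  have hspan : ∀ {P₁ B₁ : Type u} [CommRing P₁] [CommRing B₁] [Algebra F P₁] [Algebra K B₁]
      [Algebra P₁ B₁] [Algebra F B₁] [IsScalarTower F K B₁] [IsScalarTower F P₁ B₁]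
      (R : Subalgebra F K) (S : Set B₁), Function.Bijective
        (Algebra.TensorProduct.productMap (IsScalarTower.toAlgHom R K B₁)
        (BR F K P₁ B₁ R S).val) → Submodule.span K (BR F K P₁ B₁ R S : Set B₁) = ⊤ := by
    intro P₁ B₁ _ _ _ _ _ _ _ _ R S h
    rw [eq_top_iff]
    intro y _
    obtain ⟨z, rfl⟩ := h.2 y
    induction z using TensorProduct.induction_on with
    | zero => rw [map_zero]; exact zero_mem _
    | add z w hz hw => rw [map_add]; exact add_mem (hz trivial) (hw trivial)
    | tmul k z =>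
      rw [Algebra.TensorProduct.productMap_apply_tmul]
      change algebraMap K B₁ k * (z : B₁) ∈ _
      rw [← Algebra.smul_def]
      exact Submodule.smul_mem _ _ (Submodule.subset_span z.2)
  have hs := hspan Ra S (ha3 Ra le_rfl).2
  have hs' := hspan Rb S' (hb3 Rb le_rfl).2
  obtain ⟨Rc, hc1, hc2⟩ := exists_spread_basis x b hb Ra S ha2 hs
  obtain ⟨Rd, hd1, hd2⟩ := exists_spread_basis x' b' hb' Rb S' hb2 hs'
  let S₁ : Set G := algebraMap B G '' S ∪ algebraMap B' G '' S'
  have hS₁ : S₁.Finite := (ha2.image _).union (hb2.image _)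
  have hSS : algebraMap B G '' S ⊆ S₁ := Set.subset_union_left
  have hSS' : algebraMap B' G '' S' ⊆ S₁ := Set.subset_union_right
  obtain ⟨Re, he1, he2⟩ := exists_spread_localization (Q := Q) x x' hxx' b hb Ra S S₁ hS₁ hs hSS
  obtain ⟨Rf, hf1, hf2⟩ := exists_spread_localization (Q := Q) x' x (by rw [mul_comm]; exact hxx')
    b' hb' Rb S' S₁ hS₁ hs' hSS'
  let R : Subalgebra F K := Ra ⊔ Rb ⊔ Rc ⊔ Rd ⊔ Re ⊔ Rf
  have hR : R.FG := ((((ha1.sup hb1).sup hc1).sup hd1).sup he1).sup hf1
  have hRa : Ra ≤ R := le_sup_left.trans (le_sup_left.trans (le_sup_left.trans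
    (le_sup_left.trans le_sup_left)))
  have hRb : Rb ≤ R := le_sup_right.trans (le_sup_left.trans (le_sup_left.trans
    (le_sup_left.trans le_sup_left)))
  have hRc : Rc ≤ R := le_sup_right.trans (le_sup_left.trans (le_sup_left.trans le_sup_left))
  have hRd : Rd ≤ R := le_sup_right.trans (le_sup_left.trans le_sup_left)
  have hRe : Re ≤ R := le_sup_right.trans le_sup_left
  have hRf : Rf ≤ R := le_sup_right
  obtain ⟨e, -, he⟩ := hc2 R hRa hRc
  obtain ⟨e', -, he'⟩ := hd2 R hRb hRd
  have hRt : Algebra.FiniteType F R := (Subalgebra.fg_iff_finiteType R).1 hR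
  let _ : Algebra (BR F K P B R S) (BR F K Q G R S₁) := (BRmap F K P B Q G R S S₁ hSS).toAlgebra
  let _ : Algebra (BR F K P' B' R S') (BR F K Q G R S₁) :=
    (BRmap F K P' B' Q G R S' S₁ hSS').toAlgebra
  let _ : Algebra P (BR F K Q G R S₁) :=
    ((algebraMap Q (BR F K Q G R S₁)).comp (algebraMap P Q)).toAlgebra
  let _ : Algebra P' (BR F K Q G R S₁) :=
    ((algebraMap Q (BR F K Q G R S₁)).comp (algebraMap P' Q)).toAlgebra
  have t1 : IsScalarTower P Q (BR F K Q G R S₁) := IsScalarTower.of_algebraMap_eq fun _ => rfl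
  have t2 : IsScalarTower P' Q (BR F K Q G R S₁) := IsScalarTower.of_algebraMap_eq fun _ => rfl
  have t3 : IsScalarTower R (BR F K P B R S) (BR F K Q G R S₁) :=
    IsScalarTower.of_algebraMap_eq fun r => Subtype.ext (by
      change algebraMap K G (r : K) = algebraMap B G (algebraMap K B (r : K))
      exact IsScalarTower.algebraMap_apply K B G _)
  have t4 : IsScalarTower R (BR F K P' B' R S') (BR F K Q G R S₁) :=
    IsScalarTower.of_algebraMap_eq fun r => Subtype.ext (by
      change algebraMap K G (r : K) = algebraMap B' G (algebraMap K B' (r : K))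
      exact IsScalarTower.algebraMap_apply K B' G _)
  have t5 : IsScalarTower P (BR F K P B R S) (BR F K Q G R S₁) :=
    IsScalarTower.of_algebraMap_eq fun p => Subtype.ext (by
      change algebraMap Q G (algebraMap P Q p) = algebraMap B G (algebraMap P B p)
      rw [← IsScalarTower.algebraMap_apply P Q G, ← IsScalarTower.algebraMap_apply P B G])
  have t6 : IsScalarTower P' (BR F K P' B' R S') (BR F K Q G R S₁) :=
    IsScalarTower.of_algebraMap_eq fun p => Subtype.ext (by
      change algebraMap Q G (algebraMap P' Q p) = algebraMap B' G (algebraMap P' B' p)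
      rw [← IsScalarTower.algebraMap_apply P' Q G, ← IsScalarTower.algebraMap_apply P' B' G])
  have l1 : IsLocalization.Away (algebraMap P (BR F K P B R S) x) (BR F K Q G R S₁) :=
    he2 R hRa hRe
  have l2 : IsLocalization.Away (algebraMap P' (BR F K P' B' R S') x') (BR F K Q G R S₁) :=
    hf2 R hRb hRf
  obtain ⟨B₀, i1, i2, i3, i4, hBe, hBF, Φ, hΦ⟩ := constant_of_model (F := F) (R := R) (K := K)
    (P := P) (P' := P') (Q := Q) (E := BR F K P B R S) (E' := BR F K P' B' R S')
    (G := BR F K Q G R S₁) Subtype.val_injective (ha3 R hRa).1 (hb3 R hRb).1 x x' hxx' e he e' he'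
  obtain ⟨Θ, hΘ⟩ := P8_equiv (BR F K P B R S).val (ha3 R hRa).2
  refine ⟨B₀, i1, i2, i3, i4, hBe, hBF, Φ.trans Θ, fun p => ?_⟩
  rw [AlgEquiv.trans_apply, hΦ, hΘ]
  rfl
-- END P8

end Pool.Agent.Lib.MP_211349_ag
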